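import Pool.Agent.BraidLen.Defs

set_option autoImplicit false

/-!
# Stable translation lengths in CAT(0) spaces

A group `G` acts by isometries on a metric space `X` with the CN inequality.  The stable lengths
of commuting elements satisfy the parallelogram law, and for every `g` the resulting inner product
with `g` is a homomorphism on the whole centraliser of `g`.
-/

namespace Pool.Agent.BraidLen

open Filter Topology

section

variable {X : Type*} [MetricSpace X]

theorem quad (h : CN X) (a b c d : X) :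
    dist a c ^ 2 + dist b d ^ 2 ≤ dist a b ^ 2 + dist b c ^ 2 + dist c d ^ 2 + dist d a ^ 2 := by
  obtain ⟨m, hm⟩ := h a c
  have h1 := hm b
  have h2 := hm d
  have h3 : dist b d ≤ dist b m + dist d m := by
    calc dist b d ≤ dist b m + dist m d := dist_triangle _ _ _
      _ = _ := by rw [dist_comm m d]
  have h4 : dist b d ^ 2 ≤ 2 * (dist b m ^ 2 + dist d m ^ 2) := by
    nlinarith [sq_nonneg (dist b m - dist d m), dist_nonneg (x := b) (y := d)]
  rw [dist_comm b a] at h1
  rw [dist_comm d c] at h2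
  nlinarith

variable {G : Type*} [Group G] [MulAction G X]

/-- The displacement of the base point. -/
noncomputable def nm (x : X) (g : G) : ℝ := dist x (g • x)

theorem nm_nonneg (x : X) (g : G) : 0 ≤ nm x g := dist_nonneg

/-- The stable length. -/
noncomputable def ell (x : X) (g : G) : ℝ :=
  limUnder atTop (fun k : ℕ => dist x (g ^ k • x) / k)

variable (hG : ∀ g : G, Isometry (fun x : X => g • x))

include hG

theorem dist_smul' (g : G) (x y : X) : dist (g • x) (g • y) = dist x y := (hG g).dist_eq x y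

theorem dist_inv (g : G) (x y : X) : dist (g⁻¹ • x) y = dist x (g • y) := by
  rw [← dist_smul' hG g, smul_inv_smul]

theorem nm_inv (x : X) (g : G) : nm x g⁻¹ = nm x g := by
  unfold nm
  rw [dist_comm, dist_inv hG]

theorem nm_mul_le (x : X) (g h : G) : nm x (g * h) ≤ nm x g + nm x h := by
  unfold nm
  calc dist x ((g * h) • x) ≤ dist x (g • x) + dist (g • x) ((g * h) • x) := dist_triangle _ _ _
    _ = dist x (g • x) + dist x (h • x) := by rw [mul_smul, dist_smul' hG]

theorem nm_pow_le (x : X) (g : G) (k : ℕ) : nm x (g ^ k) ≤ k * nm x g := by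
  induction k with
  | zero => simp [nm]
  | succ k ih =>
    rw [pow_succ]
    refine (nm_mul_le hG x _ _).trans ?_
    push_cast
    linarith

theorem tendsto_ell (x : X) (g : G) :
    Tendsto (fun k : ℕ => dist x (g ^ k • x) / k) atTop (𝓝 (ell x g)) := by
  have hs : Subadditive (fun k : ℕ => nm x (g ^ k)) := by
    intro m n
    simp only [pow_add]
    exact nm_mul_le hG x _ _
  have hb : BddBelow (Set.range fun n : ℕ => nm x (g ^ n) / n) := by
    refine ⟨0, ?_⟩
    rintro _ ⟨n, rfl⟩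
    exact div_nonneg (nm_nonneg _ _) (Nat.cast_nonneg _)
  have h := hs.tendsto_lim hb
  exact tendsto_nhds_limUnder ⟨_, h⟩

theorem ell_eq (x : X) (g : G) {L : ℝ}
    (h : Tendsto (fun k : ℕ => dist x (g ^ k • x) / k) atTop (𝓝 L)) : ell x g = L :=
  tendsto_nhds_unique (tendsto_ell hG x g) h

theorem ell_nonneg (x : X) (g : G) : 0 ≤ ell x g :=
  ge_of_tendsto' (tendsto_ell hG x g) (fun k => by positivity)

theorem ell_le (x : X) (g : G) : ell x g ≤ nm x g := by
  refine le_of_tendsto (tendsto_ell hG x g) ?_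
  filter_upwards [eventually_gt_atTop 0] with k hk
  have hk' : (0 : ℝ) < k := by exact_mod_cast hk
  rw [div_le_iff₀ hk']
  have := nm_pow_le hG x g k
  unfold nm at this ⊢
  linarith

theorem ell_one (x : X) : ell x (1 : G) = 0 := by
  refine ell_eq hG x _ ?_
  simp

theorem ell_inv (x : X) (g : G) : ell x g⁻¹ = ell x g := by
  refine ell_eq hG x _ ?_
  refine (tendsto_ell hG x g).congr (fun k => ?_)
  have := nm_inv hG x (g ^ k)
  unfold nm at this
  rw [inv_pow, this]

theorem ell_pow (x : X) (g : G) (m : ℕ) : ell x (g ^ m) = m * ell x g := by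
  rcases Nat.eq_zero_or_pos m with rfl | hm
  · simp [ell_one hG]
  · refine ell_eq hG x _ ?_
    have h1 : Tendsto (fun k : ℕ => m * k) atTop atTop :=
      tendsto_id.const_mul_atTop' hm
    have h2 := ((tendsto_ell hG x g).comp h1).const_mul (m : ℝ)
    refine h2.congr (fun k => ?_)
    have hm' : (m : ℝ) ≠ 0 := by positivity
    simp only [Function.comp]
    rw [← pow_mul]
    push_cast
    rcases Nat.eq_zero_or_pos k with rfl | hk
    · simp
    · have hk' : (k : ℝ) ≠ 0 := by positivity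
      field_simp

theorem ell_base (x y : X) (g : G) : ell x g = ell y g := by
  refine ell_eq hG x _ ?_
  have h1 := tendsto_ell hG y g
  have h2 : Tendsto (fun k : ℕ => dist x (g ^ k • x) / k - dist y (g ^ k • y) / k) atTop (𝓝 0) := by
    have h3 : Tendsto (fun k : ℕ => 2 * dist x y / (k : ℝ)) atTop (𝓝 0) :=
      tendsto_const_nhds.div_atTop tendsto_natCast_atTop_atTop
    refine squeeze_zero_norm (fun k => ?_) h3
    rw [Real.norm_eq_abs, ← sub_div, abs_div, abs_of_nonneg (Nat.cast_nonneg (α := ℝ) k)]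
    refine div_le_div_of_nonneg_right ?_ (Nat.cast_nonneg _)
    have e1 : dist (g ^ k • x) (g ^ k • y) = dist x y := dist_smul' hG _ _ _
    rw [abs_le]
    constructor
    · have := dist_triangle4 y x (g ^ k • x) (g ^ k • y)
      rw [e1, dist_comm y x] at this
      linarith
    · have := dist_triangle4 x y (g ^ k • y) (g ^ k • x)
      rw [dist_comm (g ^ k • y), e1] at this
      linarith
  have h4 := h2.add h1
  simpa using h4

theorem ell_conj (x : X) (w g : G) : ell x (w * g * w⁻¹) = ell x g := by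
  rw [ell_base hG x (w⁻¹ • x) g]
  refine ell_eq hG x _ ?_
  refine (tendsto_ell hG (w⁻¹ • x) g).congr (fun k => ?_)
  rw [dist_inv hG, conj_pow, mul_smul, mul_smul]

theorem tendsto_sq (x : X) (g : G) :
    Tendsto (fun k : ℕ => nm x (g ^ k) ^ 2 / (k : ℝ) ^ 2) atTop (𝓝 (ell x g ^ 2)) := by
  have h := (tendsto_ell hG x g).pow 2
  refine h.congr (fun k => ?_)
  rw [div_pow]
  rfl

theorem para_nm (hX : CN X) (x : X) {g h : G} (hc : Commute g h) :
    nm x (g * h) ^ 2 + nm x (g * h⁻¹) ^ 2 ≤ 2 * nm x g ^ 2 + 2 * nm x h ^ 2 := by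
  have h1 := quad hX x (g • x) ((g * h) • x) (h • x)
  have e1 : dist (g • x) ((g * h) • x) = nm x h := by
    rw [mul_smul, dist_smul' hG]
    rfl
  have e2 : dist ((g * h) • x) (h • x) = nm x g := by
    rw [hc.eq, mul_smul, dist_smul' hG, dist_comm]
    rfl
  have e3 : dist (g • x) (h • x) = nm x (g * h⁻¹) := by
    have : g * h⁻¹ = h⁻¹ * g := (hc.inv_right).eq
    unfold nm
    rw [this, mul_smul, dist_comm x, dist_inv hG]
  have e4 : dist (h • x) x = nm x h := dist_comm _ _
  have e5 : dist x ((g * h) • x) = nm x (g * h) := rfl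
  have e6 : dist x (g • x) = nm x g := rfl
  rw [e1, e2, e3, e4, e5, e6] at h1
  linarith

theorem para_le (hX : CN X) (x : X) {g h : G} (hc : Commute g h) :
    ell x (g * h) ^ 2 + ell x (g * h⁻¹) ^ 2 ≤ 2 * ell x g ^ 2 + 2 * ell x h ^ 2 := by
  have h1 := (tendsto_sq hG x (g * h)).add (tendsto_sq hG x (g * h⁻¹))
  have h2 := ((tendsto_sq hG x g).const_mul 2).add ((tendsto_sq hG x h).const_mul 2)
  refine le_of_tendsto_of_tendsto' h1 h2 (fun k => ?_)
  have h3 := para_nm hG hX x (hc.pow_pow k k)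
  rw [hc.mul_pow, hc.inv_right.mul_pow, inv_pow, ← add_div]
  have h4 : 2 * (nm x (g ^ k) ^ 2 / (k : ℝ) ^ 2) + 2 * (nm x (h ^ k) ^ 2 / (k : ℝ) ^ 2) =
      (2 * nm x (g ^ k) ^ 2 + 2 * nm x (h ^ k) ^ 2) / (k : ℝ) ^ 2 := by ring
  rw [h4]
  exact div_le_div_of_nonneg_right h3 (by positivity)

theorem para (hX : CN X) (x : X) {g h : G} (hc : Commute g h) :
    ell x (g * h) ^ 2 + ell x (g * h⁻¹) ^ 2 = 2 * ell x g ^ 2 + 2 * ell x h ^ 2 := by
  refine le_antisymm (para_le hG hX x hc) ?_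
  have hc2 : Commute (g * h) (g * h⁻¹) := by
    refine Commute.mul_left ?_ ?_
    · exact (Commute.refl g).mul_right hc.inv_right
    · exact hc.symm.mul_right (Commute.refl h).inv_right
  have h1 := para_le hG hX x hc2
  have e1 : g * h * (g * h⁻¹) = g ^ 2 := by
    rw [mul_assoc, ← mul_assoc h g, ← hc.eq, mul_assoc g h, mul_inv_cancel, mul_one, pow_two]
  have e2 : g * h * (g * h⁻¹)⁻¹ = h ^ 2 := by
    rw [(hc.inv_right).eq, hc.eq, pow_two]
    group
  rw [e1, e2, ell_pow hG, ell_pow hG] at h1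
  push_cast at h1
  nlinarith

omit hG in
/-- The inner product of two (commuting) elements. -/
noncomputable def ip (x : X) (g h : G) : ℝ := (ell x (g * h) ^ 2 - ell x g ^ 2 - ell x h ^ 2) / 2

omit hG in
theorem ip_comm (x : X) {g h : G} (hc : Commute g h) : ip x g h = ip x h g := by
  unfold ip
  rw [hc.eq]
  ring

theorem ip_self (x : X) (g : G) : ip x g g = ell x g ^ 2 := by
  unfold ip
  rw [← pow_two, ell_pow hG]
  push_cast
  ring

theorem ip_conj (x : X) (w g h : G) : ip x (w * g * w⁻¹) (w * h * w⁻¹) = ip x g h := by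
  unfold ip
  have : w * g * w⁻¹ * (w * h * w⁻¹) = w * (g * h) * w⁻¹ := by group
  rw [this, ell_conj hG, ell_conj hG, ell_conj hG]

theorem ell_pow_mul (hX : CN X) (x : X) {g h : G} (hc : Commute g h) (n : ℕ) :
    ell x (g ^ n * h) ^ 2 = (n : ℝ) ^ 2 * ell x g ^ 2 + 2 * n * ip x g h + ell x h ^ 2 := by
  suffices H : ∀ n : ℕ,
      ell x (g ^ n * h) ^ 2 = (n : ℝ) ^ 2 * ell x g ^ 2 + 2 * n * ip x g h + ell x h ^ 2 ∧
      ell x (g ^ (n + 1) * h) ^ 2 =
        ((n : ℝ) + 1) ^ 2 * ell x g ^ 2 + 2 * (n + 1) * ip x g h + ell x h ^ 2 from (H n).1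
  intro n
  induction n with
  | zero =>
    refine ⟨by simp, ?_⟩
    simp only [zero_add, pow_one, ip]
    push_cast
    ring
  | succ n ih =>
    refine ⟨by push_cast; exact ih.2, ?_⟩
    have hc1 : Commute (g ^ (n + 1) * h) g :=
      ((Commute.refl g).pow_left (n + 1)).mul_left hc.symm
    have h1 := para hG hX x hc1
    have e1 : g ^ (n + 1) * h * g = g ^ (n + 1 + 1) * h := by
      rw [mul_assoc, ← hc.eq, ← mul_assoc, ← pow_succ]
    have e2 : g ^ (n + 1) * h * g⁻¹ = g ^ n * h := by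
      rw [mul_assoc, ← hc.inv_left.eq, ← mul_assoc, pow_succ]
      group
    rw [e1, e2, ih.1, ih.2] at h1
    push_cast
    linarith

theorem add_nm (hX : CN X) (x : X) {γ h : G} (k : G) (hc : Commute γ h) :
    |nm x (γ * h) ^ 2 + nm x (γ * k) ^ 2 - nm x γ ^ 2 - nm x (γ * (h * k)) ^ 2| ≤
      nm x h ^ 2 + nm x k ^ 2 := by
  have h1 := quad hX (h⁻¹ • x) x (γ • x) ((γ * k) • x)
  have h2 := quad hX x (h⁻¹ • x) (γ • x) ((γ * k) • x)
  have e1 : dist (h⁻¹ • x) (γ • x) = nm x (γ * h) := by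
    unfold nm
    rw [dist_inv hG, ← mul_smul, hc.eq]
  have e2 : dist x ((γ * k) • x) = nm x (γ * k) := rfl
  have e3 : dist (h⁻¹ • x) x = nm x h := by
    unfold nm
    rw [dist_inv hG]
  have e4 : dist x (γ • x) = nm x γ := rfl
  have e5 : dist (γ • x) ((γ * k) • x) = nm x k := by
    unfold nm
    rw [mul_smul, dist_smul' hG]
  have e6 : dist ((γ * k) • x) (h⁻¹ • x) = nm x (γ * (h * k)) := by
    unfold nm
    rw [dist_comm, dist_inv hG, ← mul_smul, ← mul_assoc, ← hc.eq, mul_assoc]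
  have e7 : dist (h⁻¹ • x) ((γ * k) • x) = nm x (γ * (h * k)) := by
    rw [dist_comm]
    exact e6
  rw [e1, e2, e3, e4, e5, e6] at h1
  rw [dist_comm x (h⁻¹ • x), dist_comm ((γ * k) • x) x, e1, e2, e3, e4, e5, e7] at h2
  rw [abs_le]
  constructor <;> linarith

theorem dbl (hX : CN X) (x : X) {γ h : G} (hc : Commute γ h) (i : ℕ) :
    |(nm x (γ * h ^ (2 ^ i)) ^ 2 - nm x γ ^ 2) - 2 ^ i * (nm x (γ * h) ^ 2 - nm x γ ^ 2)| ≤
      4 ^ i * nm x h ^ 2 := by
  induction i with
  | zero =>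
    simp only [pow_zero, pow_one, one_mul, sub_self, abs_zero]
    positivity
  | succ i ih =>
    have h1 := add_nm hG hX x (h ^ (2 ^ i)) (hc.pow_right (2 ^ i))
    have e1 : h ^ (2 ^ i) * h ^ (2 ^ i) = h ^ (2 ^ (i + 1)) := by
      rw [← pow_add]
      congr 1
      ring
    rw [e1] at h1
    have h2 : nm x (h ^ (2 ^ i)) ^ 2 ≤ 4 ^ i * nm x h ^ 2 := by
      have h3 := nm_pow_le hG x h (2 ^ i)
      have h4 : (((2 ^ i : ℕ) : ℝ) * nm x h) ^ 2 = 4 ^ i * nm x h ^ 2 := by
        push_cast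
        rw [mul_pow, ← pow_mul, mul_comm i 2, pow_mul]
        norm_num
      rw [← h4]
      exact pow_le_pow_left₀ (nm_nonneg _ _) h3 2
    rw [abs_le] at h1 ih ⊢
    have e3 : (4 : ℝ) ^ (i + 1) = 4 * 4 ^ i := by ring
    have e4 : (2 : ℝ) ^ (i + 1) = 2 * 2 ^ i := by ring
    rw [e3, e4]
    constructor <;> linarith [h1.1, h1.2, ih.1, ih.2]

theorem tendsto_sq2 (x : X) (g : G) :
    Tendsto (fun i : ℕ => nm x (g ^ (2 ^ i)) ^ 2 / (4 : ℝ) ^ i) atTop (𝓝 (ell x g ^ 2)) := by
  have h1 : Tendsto (fun i : ℕ => 2 ^ i) atTop atTop :=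
    tendsto_pow_atTop_atTop_of_one_lt (by norm_num)
  refine ((tendsto_sq hG x g).comp h1).congr (fun i => ?_)
  simp only [Function.comp]
  congr 1
  push_cast
  rw [← pow_mul, mul_comm i 2, pow_mul]
  norm_num

/-- The inner product with `g` is a homomorphism on the centraliser of `g`. -/
theorem ip_mul (hX : CN X) (x : X) {g h k : G} (hh : Commute g h) (hk : Commute g k) :
    ip x g (h * k) = ip x g h + ip x g k := by
  set C : ℝ := nm x (h * k) ^ 2 + 2 * nm x h ^ 2 + 2 * nm x k ^ 2 with hC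
  have key : ∀ N : ℕ,
      |(2 * N * ip x g (h * k) + ell x (h * k) ^ 2) - (2 * N * ip x g h + ell x h ^ 2) -
        (2 * N * ip x g k + ell x k ^ 2)| ≤ C := by
    intro N
    have lim : ∀ f : G, Commute g f →
        Tendsto (fun i : ℕ => (nm x ((g ^ N) ^ (2 ^ i) * f ^ (2 ^ i)) ^ 2 -
          nm x ((g ^ N) ^ (2 ^ i)) ^ 2) / (4 : ℝ) ^ i) atTop
          (𝓝 (2 * N * ip x g f + ell x f ^ 2)) := by
      intro f hf
      have h1 := (tendsto_sq2 hG x (g ^ N * f)).sub (tendsto_sq2 hG x (g ^ N))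
      have e1 : ell x (g ^ N * f) ^ 2 - ell x (g ^ N) ^ 2 = 2 * N * ip x g f + ell x f ^ 2 := by
        rw [ell_pow_mul hG hX x hf, ell_pow hG]
        ring
      rw [e1] at h1
      refine h1.congr (fun i => ?_)
      rw [(hf.pow_left N).mul_pow, sub_div]
    have h2 := ((lim (h * k) (hh.mul_right hk)).sub (lim h hh)).sub (lim k hk)
    refine le_of_tendsto h2.abs (Eventually.of_forall (fun i => ?_))
    set γ : G := (g ^ N) ^ (2 ^ i) with hγ
    have ch : Commute γ h := (hh.pow_left N).pow_left _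
    have ck : Commute γ k := (hk.pow_left N).pow_left _
    have d1 := dbl hG hX x (ch.mul_right ck) i
    have d2 := dbl hG hX x ch i
    have d3 := dbl hG hX x ck i
    have d4 := add_nm hG hX x k ch
    have p4 : (0 : ℝ) < 4 ^ i := by positivity
    have p2 : (1 : ℝ) ≤ 2 ^ i := one_le_pow₀ (by norm_num)
    have p24 : (2 : ℝ) ^ i ≤ 4 ^ i := pow_le_pow_left₀ (by norm_num) (by norm_num) i
    rw [← sub_div, ← sub_div, abs_div, abs_of_pos p4, div_le_iff₀ p4]
    have d5 : |2 ^ i * (nm x (γ * (h * k)) ^ 2 - nm x γ ^ 2) -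
        2 ^ i * (nm x (γ * h) ^ 2 - nm x γ ^ 2) - 2 ^ i * (nm x (γ * k) ^ 2 - nm x γ ^ 2)| ≤
        4 ^ i * (nm x h ^ 2 + nm x k ^ 2) := by
      have e2 : 2 ^ i * (nm x (γ * (h * k)) ^ 2 - nm x γ ^ 2) -
        2 ^ i * (nm x (γ * h) ^ 2 - nm x γ ^ 2) - 2 ^ i * (nm x (γ * k) ^ 2 - nm x γ ^ 2) =
        -(2 ^ i * (nm x (γ * h) ^ 2 + nm x (γ * k) ^ 2 - nm x γ ^ 2 -
          nm x (γ * (h * k)) ^ 2)) := by ring
      rw [e2, abs_neg, abs_mul, abs_of_pos (by positivity : (0 : ℝ) < 2 ^ i)]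
      calc 2 ^ i * |nm x (γ * h) ^ 2 + nm x (γ * k) ^ 2 - nm x γ ^ 2 - nm x (γ * (h * k)) ^ 2|
          ≤ 2 ^ i * (nm x h ^ 2 + nm x k ^ 2) := by gcongr
        _ ≤ 4 ^ i * (nm x h ^ 2 + nm x k ^ 2) := by gcongr
    rw [abs_le] at d1 d2 d3 d5 ⊢
    rw [hC]
    constructor <;> nlinarith [d1.1, d1.2, d2.1, d2.2, d3.1, d3.2, d5.1, d5.2]
  have key2 : ∀ N : ℕ, (N : ℝ) * (2 * |ip x g (h * k) - ip x g h - ip x g k|) ≤
      C + |ell x (h * k) ^ 2 - ell x h ^ 2 - ell x k ^ 2| := by
    intro N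
    have h1 := key N
    have e1 : (2 * N * ip x g (h * k) + ell x (h * k) ^ 2) - (2 * N * ip x g h + ell x h ^ 2) -
        (2 * N * ip x g k + ell x k ^ 2) = 2 * N * (ip x g (h * k) - ip x g h - ip x g k) +
        (ell x (h * k) ^ 2 - ell x h ^ 2 - ell x k ^ 2) := by ring
    rw [e1] at h1
    have h2 := abs_sub_abs_le_abs_sub (2 * N * (ip x g (h * k) - ip x g h - ip x g k))
      (-(ell x (h * k) ^ 2 - ell x h ^ 2 - ell x k ^ 2))
    rw [sub_neg_eq_add, abs_neg] at h2
    have h3 : |2 * (N : ℝ) * (ip x g (h * k) - ip x g h - ip x g k)| =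
        (N : ℝ) * (2 * |ip x g (h * k) - ip x g h - ip x g k|) := by
      rw [abs_mul, abs_of_nonneg (by positivity : (0 : ℝ) ≤ 2 * N)]
      ring
    rw [h3] at h2
    linarith
  by_contra hne
  have hpos : 0 < 2 * |ip x g (h * k) - ip x g h - ip x g k| := by
    have : ip x g (h * k) - ip x g h - ip x g k ≠ 0 := fun h0 => hne (by linarith)
    positivity
  obtain ⟨N, hN⟩ := exists_nat_gt
    ((C + |ell x (h * k) ^ 2 - ell x h ^ 2 - ell x k ^ 2|) /
      (2 * |ip x g (h * k) - ip x g h - ip x g k|))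
  rw [div_lt_iff₀ hpos] at hN
  linarith [key2 N]

theorem ip_one (x : X) (g : G) : ip x g (1 : G) = 0 := by
  unfold ip
  rw [mul_one, ell_one hG]
  ring

theorem ip_inv (hX : CN X) (x : X) {g h : G} (hh : Commute g h) : ip x g h⁻¹ = -ip x g h := by
  have h1 := ip_mul hG hX x hh hh.inv_right
  rw [mul_inv_cancel, ip_one hG] at h1
  linarith

theorem ip_pow (hX : CN X) (x : X) {g h : G} (hh : Commute g h) (n : ℕ) :
    ip x g (h ^ n) = n * ip x g h := by
  induction n with
  | zero => simp [ip_one hG]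
  | succ n ih =>
    rw [pow_succ, ip_mul hG hX x (hh.pow_right n) hh, ih]
    push_cast
    ring

theorem ip_zpow (hX : CN X) (x : X) {g h : G} (hh : Commute g h) (n : ℤ) :
    ip x g (h ^ n) = n * ip x g h := by
  obtain ⟨m, rfl | rfl⟩ := n.eq_nat_or_neg
  · rw [zpow_natCast, ip_pow hG hX x hh]
    push_cast
    rfl
  · rw [zpow_neg, zpow_natCast, ip_inv hG hX x (hh.pow_right m), ip_pow hG hX x hh]
    push_cast
    ring

theorem ell_mul_le (x : X) {g h : G} (hc : Commute g h) :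
    ell x (g * h) ≤ ell x g + ell x h := by
  have h1 := tendsto_ell hG x (g * h)
  have h2 := (tendsto_ell hG x g).add (tendsto_ell hG x h)
  refine le_of_tendsto_of_tendsto' h1 h2 (fun k => ?_)
  rw [hc.mul_pow, ← add_div]
  exact div_le_div_of_nonneg_right (nm_mul_le hG x _ _) (by positivity)

theorem abs_ip_le (hX : CN X) (x : X) {g h : G} (hh : Commute g h) :
    |ip x g h| ≤ ell x g * ell x h := by
  have h1 : ∀ f : G, Commute g f → ip x g f ≤ ell x g * ell x f := by
    intro f hf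
    have h2 := ell_mul_le hG x hf
    have h3 := ell_nonneg hG x (g * f)
    have h4 : ell x (g * f) ^ 2 ≤ (ell x g + ell x f) ^ 2 := pow_le_pow_left₀ h3 h2 2
    unfold ip
    nlinarith
  rw [abs_le]
  constructor
  · have h5 := h1 h⁻¹ hh.inv_right
    rw [ip_inv hG hX x hh, ell_inv hG] at h5
    linarith
  · exact h1 h hh

theorem ip_prod (hX : CN X) (x : X) (g : G) {m : ℕ} (T : Fin m → G) (e : Fin m → ℤ)
    (hc : ∀ j, Commute g (T j)) :
    ip x g (List.ofFn fun j => T j ^ e j).prod = ∑ j, (e j : ℝ) * ip x g (T j) := by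
  induction m with
  | zero => simp [ip_one hG]
  | succ m ih =>
    rw [List.ofFn_succ, List.prod_cons, Fin.sum_univ_succ, ip_mul hG hX x, ip_zpow hG hX x (hc 0),
      ih (fun j => T j.succ) (fun j => e j.succ) (fun j => hc j.succ)]
    · exact (hc 0).zpow_right _
    · refine Commute.list_prod_right _ _ (fun y hy => ?_)
      rw [List.mem_ofFn] at hy
      obtain ⟨j, rfl⟩ := hy
      exact (hc j.succ).zpow_right _

/-- The square of the length of a product of commuting elements. -/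
theorem ell_prod (hX : CN X) (x : X) {m : ℕ} (T : Fin m → G) (e : Fin m → ℤ)
    (hc : ∀ i j, Commute (T i) (T j)) :
    ell x (List.ofFn fun j => T j ^ e j).prod ^ 2 =
      ∑ i, ∑ j, (e i : ℝ) * e j * ip x (T i) (T j) := by
  have hP : ∀ i, Commute (T i) (List.ofFn fun j => T j ^ e j).prod := by
    intro i
    refine Commute.list_prod_right _ _ (fun y hy => ?_)
    rw [List.mem_ofFn] at hy
    obtain ⟨j, rfl⟩ := hy
    exact (hc i j).zpow_right _
  rw [← ip_self hG, ip_prod hG hX x _ T e (fun j => (hP j).symm)]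
  refine Finset.sum_congr rfl (fun i _ => ?_)
  rw [ip_comm x (hP i).symm, ip_prod hG hX x _ T e (hc i), Finset.mul_sum]
  refine Finset.sum_congr rfl (fun j _ => ?_)
  ring

end

end Pool.Agent.BraidLen
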