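import Pool.Agent.BraidLen.Defs

set_option autoImplicit false

/-!
# The form `Q` on multitwists
-/

namespace Pool.Agent.BraidLen

open Finset

/-- indicator of the pairs of different strands in `[a, a+k]` -/
noncomputable def ch (n a k : ℕ) (p q : Fin (n + 1)) : ℝ :=
  if p ≠ q ∧ (a ≤ p.val ∧ p.val ≤ a + k) ∧ (a ≤ q.val ∧ q.val ≤ a + k) then 1 else 0

/-- indicator of `[a, a+k]` -/
noncomputable def id1 (n a k : ℕ) (p : Fin (n + 1)) : ℝ :=
  if a ≤ p.val ∧ p.val ≤ a + k then 1 else 0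

theorem sum_id1 {n a k : ℕ} (h : a + k ≤ n) : ∑ p, id1 n a k p = k + 1 := by
  unfold id1
  rw [Finset.sum_boole]
  have : (univ.filter fun p : Fin (n + 1) => a ≤ p.val ∧ p.val ≤ a + k).card = k + 1 := by
    have h1 : (univ.filter fun p : Fin (n + 1) => a ≤ p.val ∧ p.val ≤ a + k).card =
        (Finset.Icc a (a + k)).card := by
      refine Finset.card_bij (fun p _ => p.val) ?_ ?_ ?_
      · intro p hp
        simpa using hp
      · intro p _ q _ hpq
        exact Fin.ext hpq
      · intro b hb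
        rw [Finset.mem_Icc] at hb
        exact ⟨⟨b, by omega⟩, by simpa using hb, rfl⟩
    rw [h1, Nat.card_Icc]
    omega
  rw [this]
  push_cast
  ring

theorem ch_eq (n a k : ℕ) (p q : Fin (n + 1)) :
    ch n a k p q = id1 n a k p * id1 n a k q - if q = p then id1 n a k p else 0 := by
  unfold ch id1
  by_cases hpq : p = q
  · subst hpq
    simp only [ne_eq, not_true_eq_false, false_and, if_false, if_true]
    split_ifs <;> simp
  · have hqp : ¬ q = p := fun h => hpq h.symm
    simp only [hpq, hqp, ne_eq, not_false_eq_true, true_and, if_false, sub_zero]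
    split_ifs <;> simp_all

theorem row_ch {n a k : ℕ} (h : a + k ≤ n) (p : Fin (n + 1)) :
    ∑ q, ch n a k p q = k * id1 n a k p := by
  simp only [ch_eq, Finset.sum_sub_distrib, ← Finset.mul_sum, sum_id1 h, Finset.sum_ite_eq',
    Finset.mem_univ, if_true]
  ring

theorem tot_ch {n a k : ℕ} (h : a + k ≤ n) : ∑ p, ∑ q, ch n a k p q = k * (k + 1) := by
  simp only [row_ch h, ← Finset.mul_sum, sum_id1 h]

/-- the bilinear form -/
noncomputable def bil (n : ℕ) (A B C : ℝ) (v w : Fin (n + 1) → Fin (n + 1) → ℝ) : ℝ :=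
  A * ((∑ p, ∑ q, v p q) * ∑ p, ∑ q, w p q) + B * ∑ p, (∑ q, v p q) * ∑ q, w p q +
    C * ∑ p, ∑ q, v p q * w p q

theorem bil_comm (n : ℕ) (A B C : ℝ) (v w : Fin (n + 1) → Fin (n + 1) → ℝ) :
    bil n A B C v w = bil n A B C w v := by
  unfold bil
  simp only [mul_comm]

theorem bil_nested {n : ℕ} (A B C : ℝ) {a k b m : ℕ} (hk : a + k ≤ n) (hab : a ≤ b)
    (hm : b + m ≤ a + k) :
    bil n A B C (ch n a k) (ch n b m) = m * (m + 1) * (A * (k * (k + 1)) + B * k + C) := by
  unfold bil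
  have h1 : ∀ p, id1 n a k p * id1 n b m p = id1 n b m p := by
    intro p
    unfold id1
    by_cases h : b ≤ p.val ∧ p.val ≤ b + m
    · rw [if_pos h, if_pos (by omega), one_mul]
    · rw [if_neg h, mul_zero]
  have h2 : ∀ p q, ch n a k p q * ch n b m p q = ch n b m p q := by
    intro p q
    unfold ch
    by_cases h : p ≠ q ∧ (b ≤ p.val ∧ p.val ≤ b + m) ∧ (b ≤ q.val ∧ q.val ≤ b + m)
    · rw [if_pos h, if_pos ⟨h.1, by omega, by omega⟩, one_mul]
    · rw [if_neg h, mul_zero]
  have h3 : ∑ p, (∑ q, ch n a k p q) * ∑ q, ch n b m p q = k * m * (m + 1) := by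
    have : ∀ p, (∑ q, ch n a k p q) * ∑ q, ch n b m p q = k * m * id1 n b m p := by
      intro p
      rw [row_ch hk, row_ch (by omega)]
      calc k * id1 n a k p * (m * id1 n b m p) = k * m * (id1 n a k p * id1 n b m p) := by ring
        _ = _ := by rw [h1 p]
    rw [Finset.sum_congr rfl (fun p _ => this p), ← Finset.mul_sum, sum_id1 (by omega)]
  rw [h3, tot_ch hk, tot_ch (by omega)]
  simp only [h2]
  rw [tot_ch (by omega)]
  ring

theorem bil_disj {n : ℕ} (A B C : ℝ) {a k b m : ℕ} (hk : a + k < b) (hm : b + m ≤ n) :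
    bil n A B C (ch n a k) (ch n b m) = k * (k + 1) * (m * (m + 1)) * A := by
  unfold bil
  have h1 : ∀ p, id1 n a k p * id1 n b m p = 0 := by
    intro p
    unfold id1
    by_cases h : b ≤ p.val ∧ p.val ≤ b + m
    · rw [if_neg (by omega), zero_mul]
    · rw [if_neg h, mul_zero]
  have h2 : ∀ p q, ch n a k p q * ch n b m p q = 0 := by
    intro p q
    unfold ch
    by_cases h : p ≠ q ∧ (b ≤ p.val ∧ p.val ≤ b + m) ∧ (b ≤ q.val ∧ q.val ≤ b + m)
    · rw [if_neg (by omega), zero_mul]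
    · rw [if_neg h, mul_zero]
  have h3 : ∑ p, (∑ q, ch n a k p q) * ∑ q, ch n b m p q = 0 := by
    refine Finset.sum_eq_zero (fun p _ => ?_)
    rw [row_ch (by omega), row_ch hm]
    have := h1 p
    calc k * id1 n a k p * (m * id1 n b m p) = k * m * (id1 n a k p * id1 n b m p) := by ring
      _ = 0 := by rw [this, mul_zero]
  rw [h3, tot_ch (by omega), tot_ch hm]
  simp only [h2, Finset.sum_const_zero]
  ring

theorem bil_sum_left {n : ℕ} (A B C : ℝ) {m : ℕ} (e : Fin m → ℝ)
    (v : Fin m → Fin (n + 1) → Fin (n + 1) → ℝ) (w : Fin (n + 1) → Fin (n + 1) → ℝ) :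
    bil n A B C (fun p q => ∑ j, e j * v j p q) w = ∑ j, e j * bil n A B C (v j) w := by
  unfold bil
  have r1 : ∀ p, ∑ q, ∑ j, e j * v j p q = ∑ j, e j * ∑ q, v j p q := by
    intro p
    rw [Finset.sum_comm]
    simp only [Finset.mul_sum]
  have r2 : ∑ p, ∑ q, ∑ j, e j * v j p q = ∑ j, e j * ∑ p, ∑ q, v j p q := by
    simp only [r1]
    rw [Finset.sum_comm]
    simp only [Finset.mul_sum]
  have r3 : ∑ p, (∑ q, ∑ j, e j * v j p q) * ∑ q, w p q =
      ∑ j, e j * ∑ p, (∑ q, v j p q) * ∑ q, w p q := by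
    have : ∀ p, (∑ q, ∑ j, e j * v j p q) * ∑ q, w p q =
        ∑ j, e j * ((∑ q, v j p q) * ∑ q, w p q) := by
      intro p
      rw [r1 p, Finset.sum_mul]
      exact Finset.sum_congr rfl (fun j _ => mul_assoc _ _ _)
    rw [Finset.sum_congr rfl (fun p _ => this p), Finset.sum_comm]
    exact Finset.sum_congr rfl (fun j _ => (Finset.mul_sum _ _ _).symm)
  have r4 : ∑ p, ∑ q, (∑ j, e j * v j p q) * w p q = ∑ j, e j * ∑ p, ∑ q, v j p q * w p q := by
    simp only [Finset.sum_mul]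
    have : ∀ p, ∑ q, ∑ j, e j * v j p q * w p q = ∑ j, e j * ∑ q, v j p q * w p q := by
      intro p
      rw [Finset.sum_comm]
      simp only [Finset.mul_sum, mul_assoc]
    simp only [this]
    rw [Finset.sum_comm]
    simp only [Finset.mul_sum]
  rw [r3, r4]
  simp only [r1] at r2 ⊢
  rw [r2, Finset.sum_mul, Finset.mul_sum, Finset.mul_sum, Finset.mul_sum,
    ← Finset.sum_add_distrib, ← Finset.sum_add_distrib]
  refine Finset.sum_congr rfl (fun j _ => ?_)
  ring

theorem link_cast (n : ℕ) {m : ℕ} (a k : Fin m → ℕ) (e : Fin m → ℤ) (p q : Fin (n + 1)) :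
    (link n a k e p q : ℝ) = ∑ j, (e j : ℝ) * ch n (a j) (k j) p q := by
  unfold link ch
  push_cast
  refine Finset.sum_congr rfl (fun j _ => ?_)
  split_ifs <;> simp

/-- the form on a multitwist -/
theorem Q_link (n : ℕ) (A B C : ℝ) {m : ℕ} (a k : Fin m → ℕ) (e : Fin m → ℤ) :
    Q n A B C (link n a k e) =
      ∑ i, ∑ j, (e i : ℝ) * e j * bil n A B C (ch n (a i) (k i)) (ch n (a j) (k j)) := by
  have h1 : Q n A B C (link n a k e) =
      bil n A B C (fun p q => ∑ j, (e j : ℝ) * ch n (a j) (k j) p q)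
        (fun p q => ∑ j, (e j : ℝ) * ch n (a j) (k j) p q) := by
    unfold Q bil
    simp only [link_cast, pow_two]
  rw [h1, bil_sum_left]
  refine Finset.sum_congr rfl (fun i _ => ?_)
  rw [bil_comm, bil_sum_left, Finset.mul_sum]
  refine Finset.sum_congr rfl (fun j _ => ?_)
  rw [bil_comm]
  ring

end Pool.Agent.BraidLen
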