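import Mathlib

set_option autoImplicit false

/-!
# Multitwists in the braid groups: definitions for the statement

`Braid n` is the braid group on the `n + 1` strands `0, …, n`.
-/

namespace Pool.Agent.BraidLen

open Filter Topology

/-- The relations of the braid group with generators `0, …, n-1`. -/
def rels (n : ℕ) : Set (FreeGroup (Fin n)) :=
  {r | ∃ i j : Fin n,
    (i.val + 1 = j.val ∧
      r = FreeGroup.of i * FreeGroup.of j * FreeGroup.of i *
        (FreeGroup.of j * FreeGroup.of i * FreeGroup.of j)⁻¹) ∨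
    (i.val + 2 ≤ j.val ∧
      r = FreeGroup.of i * FreeGroup.of j *
        (FreeGroup.of j * FreeGroup.of i)⁻¹)}

/-- The braid group on the `n + 1` strands `0, …, n` (Artin presentation with `n` generators). -/
abbrev Braid (n : ℕ) : Type := PresentedGroup (rels n)

/-- The generator `σ i` (the strands `i` and `i + 1` cross) for `i < n`, and `1` for `i ≥ n`. -/
def gen (n i : ℕ) : Braid n := if h : i < n then PresentedGroup.of ⟨i, h⟩ else 1

/-- The full twist `(σ a ⋯ σ (a+k-1)) ^ (k+1)` on the `k + 1` strands `a, …, a + k`. -/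
def twist (n a k : ℕ) : Braid n := ((List.range k).map fun j => gen n (a + j)).prod ^ (k + 1)

/-- The product of the powers `e j` of the full twists on the strands `a j, …, a j + k j`. -/
def multi (n : ℕ) {m : ℕ} (a k : Fin m → ℕ) (e : Fin m → ℤ) : Braid n :=
  (List.ofFn fun j => twist n (a j) (k j) ^ e j).prod

/-- The intervals `[a j, a j + k j]` are contained in `[0, n]`, and any two of them are nested or
disjoint. -/
def Lam (n : ℕ) {m : ℕ} (a k : Fin m → ℕ) : Prop :=
  (∀ j, a j + k j ≤ n) ∧ ∀ i j, (a i ≤ a j ∧ a j + k j ≤ a i + k i) ∨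
    (a j ≤ a i ∧ a i + k i ≤ a j + k j) ∨ a i + k i < a j ∨ a j + k j < a i

/-- The number of full turns of the strands `p` and `q` around each other in `multi n a k e`. -/
def link (n : ℕ) {m : ℕ} (a k : Fin m → ℕ) (e : Fin m → ℤ) (p q : Fin (n + 1)) : ℤ :=
  ∑ j, if p ≠ q ∧ (a j ≤ p.val ∧ p.val ≤ a j + k j) ∧ (a j ≤ q.val ∧ q.val ≤ a j + k j)
    then e j else 0

/-- The general quadratic form in the numbers `v p q` that is invariant under the permutations of
the strands. -/
noncomputable def Q (n : ℕ) (A B C : ℝ) (v : Fin (n + 1) → Fin (n + 1) → ℤ) : ℝ :=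
  A * (∑ p, ∑ q, (v p q : ℝ)) ^ 2 + B * ∑ p, (∑ q, (v p q : ℝ)) ^ 2 +
    C * ∑ p, ∑ q, (v p q : ℝ) ^ 2

/-- The forms `Q n A B C` that are positive semidefinite (for `n ≥ 3`). -/
def Cone (n : ℕ) (A B C : ℝ) : Prop :=
  0 ≤ C ∧ 0 ≤ (n - 1) * B + 2 * C ∧ 0 ≤ n * (n + 1) * A + n * B + C

/-- Any two points have a midpoint with the inequality of Bruhat and Tits. (A complete metric space
is a CAT(0) space if and only if it has this property.) -/
def CN (X : Type*) [MetricSpace X] : Prop :=
  ∀ x y : X, ∃ m : X, ∀ z : X,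
    dist z m ^ 2 ≤ (dist z x ^ 2 + dist z y ^ 2) / 2 - dist x y ^ 2 / 4

/-- For all multitwists (conjugates `g` of products of powers of full twists on nested or disjoint
sets of strands) the square of the translation length `lim dist x (g ^ N • x) / N` is the value of
the form `Q n A B C`. -/
def LenForm (n : ℕ) (X : Type*) [MetricSpace X] [MulAction (Braid n) X] (A B C : ℝ) : Prop :=
  ∀ (m : ℕ) (a k : Fin m → ℕ) (e : Fin m → ℤ), Lam n a k → ∀ (w : Braid n) (x : X),
    Tendsto (fun N : ℕ => (dist x ((w * multi n a k e * w⁻¹) ^ N • x) / N) ^ 2) atTop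
      (𝓝 (Q n A B C (link n a k e)))

end Pool.Agent.BraidLen
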