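import Pool.Agent.BraidLen.Rigid

set_option autoImplicit false

/-!
# Realisation of all positive semidefinite forms by actions on Euclidean spaces
-/

namespace Pool.Agent.BraidLen

open Finset Filter Topology

/-- The Euclidean space of dimension `(n + 1) ^ 2`. -/
abbrev EV (n : ℕ) : Type := EuclideanSpace ℝ (Fin (n + 1) × Fin (n + 1))

theorem cn_euclid (n : ℕ) : CN (EV n) := by
  intro x y
  refine ⟨(1 / 2 : ℝ) • (x + y), fun z => ?_⟩
  have h1 := parallelogram_law_with_norm ℝ (z - x) (z - y)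
  have e1 : z - x + (z - y) = (2 : ℝ) • (z - (1 / 2 : ℝ) • (x + y)) := by module
  have e2 : z - x - (z - y) = -(x - y) := by abel
  rw [e1, e2, norm_neg, norm_smul, Real.norm_of_nonneg (by norm_num : (0 : ℝ) ≤ 2)] at h1
  rw [dist_eq_norm, dist_eq_norm, dist_eq_norm, dist_eq_norm]
  linarith

/-- permutation of the coordinates -/
noncomputable def perm {n : ℕ} (π : Equiv.Perm (Fin (n + 1))) : EV n ≃ₗᵢ[ℝ] EV n :=
  LinearIsometryEquiv.piLpCongrLeft 2 ℝ ℝ (π.prodCongr π)

theorem perm_apply {n : ℕ} (π : Equiv.Perm (Fin (n + 1))) (v : EV n) (i : Fin (n + 1) × Fin (n + 1)) :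
    perm π v i = v (π.symm i.1, π.symm i.2) := rfl

theorem perm_one {n : ℕ} (v : EV n) : perm 1 v = v := by
  ext i
  rfl

theorem perm_mul {n : ℕ} (π π' : Equiv.Perm (Fin (n + 1))) (v : EV n) :
    perm (π * π') v = perm π (perm π' v) := by
  ext i
  rfl

/-- the isometry `v ↦ π v + c` -/
noncomputable def iso {n : ℕ} (π : Equiv.Perm (Fin (n + 1))) (c : EV n) : EV n ≃ᵢ EV n :=
  (perm π).toIsometryEquiv.trans (IsometryEquiv.addRight c)

theorem iso_apply {n : ℕ} (π : Equiv.Perm (Fin (n + 1))) (c v : EV n) :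
    iso π c v = perm π v + c := rfl

theorem iso_mul {n : ℕ} (π π' : Equiv.Perm (Fin (n + 1))) (c c' : EV n) :
    iso π c * iso π' c' = iso (π * π') (perm π c' + c) := by
  ext v : 1
  show iso π c (iso π' c' v) = _
  rw [iso_apply, iso_apply, iso_apply, perm_mul, map_add]
  abel

theorem iso_one {n : ℕ} : (iso 1 0 : EV n ≃ᵢ EV n) = 1 := by
  ext v : 1
  rw [iso_apply, perm_one, add_zero]
  rfl

/-! ### The equivariant map -/

/-- functions of two strands -/
abbrev Fn (n : ℕ) : Type := Fin (n + 1) → Fin (n + 1) → ℝ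

/-- the equivariant linear map, as a function -/
noncomputable def mf {n : ℕ} (x y z : ℝ) (v : Fn n) : Fn n := fun p q =>
  if p = q then 0 else x * v p q + y * (∑ r, v p r + ∑ r, v q r) + z * ∑ s, ∑ r, v s r

/-- the equivariant linear map -/
noncomputable def mv {n : ℕ} (x y z : ℝ) (v : Fn n) : EV n :=
  WithLp.toLp 2 (fun i => mf x y z v i.1 i.2)

theorem mv_apply {n : ℕ} (x y z : ℝ) (v : Fn n) (i : Fin (n + 1) × Fin (n + 1)) :
    mv x y z v i = mf x y z v i.1 i.2 := rfl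

theorem mv_add {n : ℕ} (x y z : ℝ) (v w : Fn n) :
    mv x y z (v + w) = mv x y z v + mv x y z w := by
  ext i
  simp only [PiLp.add_apply, mv_apply, mf, Pi.add_apply, Finset.sum_add_distrib]
  split_ifs
  · ring
  · ring

theorem mv_smul {n : ℕ} (x y z c : ℝ) (v : Fn n) :
    mv x y z (c • v) = c • mv x y z v := by
  ext i
  simp only [PiLp.smul_apply, mv_apply, mf, Pi.smul_apply, smul_eq_mul, ← Finset.mul_sum]
  split_ifs
  · ring
  · ring

theorem mv_zero {n : ℕ} (x y z : ℝ) : mv x y z (0 : Fn n) = 0 := by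
  have := mv_smul x y z 0 (0 : Fn n)
  rwa [zero_smul, zero_smul] at this

/-- permutation of the strands -/
def pf {n : ℕ} (π : Equiv.Perm (Fin (n + 1))) (v : Fn n) : Fn n :=
  fun p q => v (π.symm p) (π.symm q)

theorem perm_mv {n : ℕ} (x y z : ℝ) (π : Equiv.Perm (Fin (n + 1))) (v : Fn n) :
    perm π (mv x y z v) = mv x y z (pf π v) := by
  ext i
  rw [perm_apply, mv_apply, mv_apply]
  simp only [mf, pf, EmbeddingLike.apply_eq_iff_eq]
  have h1 : ∀ s, ∑ r, v s (π.symm r) = ∑ r, v s r := fun s => Equiv.sum_comp π.symm (v s)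
  have h2 : ∑ s, ∑ r, v (π.symm s) (π.symm r) = ∑ s, ∑ r, v s r := by
    simp only [h1]
    exact Equiv.sum_comp π.symm (fun s => ∑ r, v s r)
  rw [h1, h1, h2]

/-- the norm of the image -/
theorem norm_mv {n : ℕ} (x y z : ℝ) (v : Fn n) (h0 : ∀ p, v p p = 0) (hs : ∀ p q, v p q = v q p) :
    ‖mv x y z v‖ ^ 2 = (2 * x * z + 2 * y ^ 2 + 4 * n * y * z + n * (n + 1) * z ^ 2) *
      (∑ p, ∑ q, v p q) ^ 2 + (4 * x * y + 2 * (n - 1) * y ^ 2) * ∑ p, (∑ q, v p q) ^ 2 +
      x ^ 2 * ∑ p, ∑ q, v p q ^ 2 := by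
  set R : Fin (n + 1) → ℝ := fun p => ∑ q, v p q with hR
  set S : ℝ := ∑ p, R p with hS
  have e0 : ‖mv x y z v‖ ^ 2 = ∑ p, ∑ q, (mf x y z v p q) ^ 2 := by
    rw [EuclideanSpace.norm_sq_eq, Fintype.sum_prod_type]
    refine Finset.sum_congr rfl (fun p _ => Finset.sum_congr rfl (fun q _ => ?_))
    rw [mv_apply, Real.norm_eq_abs, sq_abs]
  have e1 : ∀ p q, (mf x y z v p q) ^ 2 = (x * v p q + y * (R p + R q) + z * S) ^ 2 -
      if q = p then (2 * y * R p + z * S) ^ 2 else 0 := by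
    intro p q
    unfold mf
    by_cases hpq : p = q
    · subst hpq
      rw [if_pos rfl, if_pos rfl, h0]
      ring
    · rw [if_neg hpq, if_neg (fun h => hpq h.symm), sub_zero]
  have e2 : ∀ p, ∑ q, (mf x y z v p q) ^ 2 = x ^ 2 * ∑ q, v p q ^ 2 +
      2 * x * y * (R p * R p + ∑ q, v p q * R q) + 2 * x * z * S * R p +
      y ^ 2 * ((n + 1) * R p ^ 2 + 2 * R p * S + ∑ q, R q ^ 2) +
      2 * y * z * S * ((n + 1) * R p + S) + (n + 1) * (z * S) ^ 2 -
        (2 * y * R p + z * S) ^ 2 := by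
    intro p
    simp only [e1, Finset.sum_sub_distrib, Finset.sum_ite_eq', Finset.mem_univ, if_true]
    have : ∀ q, (x * v p q + y * (R p + R q) + z * S) ^ 2 =
        x ^ 2 * v p q ^ 2 + 2 * x * y * R p * v p q + 2 * x * y * (v p q * R q) +
        2 * x * z * S * v p q + y ^ 2 * R p ^ 2 + 2 * y ^ 2 * R p * R q + y ^ 2 * R q ^ 2 +
        2 * y * z * S * R p + 2 * y * z * S * R q + (z * S) ^ 2 := by
      intro q
      ring
    simp only [this, Finset.sum_add_distrib, ← Finset.mul_sum, Finset.sum_const,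
      Finset.card_univ, Fintype.card_fin, nsmul_eq_mul]
    rw [show ∑ q, v p q = R p from rfl, show ∑ q, R q = S from rfl]
    push_cast
    ring
  have e3 : ∑ p, ∑ q, v p q * R q = ∑ p, R p ^ 2 := by
    rw [Finset.sum_comm]
    refine Finset.sum_congr rfl (fun q _ => ?_)
    rw [← Finset.sum_mul, pow_two]
    congr 1
    exact Finset.sum_congr rfl (fun p _ => hs p q)
  rw [e0]
  simp only [e2]
  have e4 : ∀ p, (2 * y * R p + z * S) ^ 2 =
      4 * y ^ 2 * R p ^ 2 + 4 * y * z * S * R p + (z * S) ^ 2 := by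
    intro p
    ring
  have e5 : ∀ p, R p * R p = R p ^ 2 := fun p => (pow_two _).symm
  have e6 : ∀ p, 2 * R p * S = 2 * S * R p := fun p => by ring
  simp only [e4, e5, e6, Finset.sum_add_distrib, Finset.sum_sub_distrib, ← Finset.mul_sum,
    Finset.sum_const, Finset.card_univ, Fintype.card_fin, nsmul_eq_mul]
  rw [e3, show ∑ q, R q = S from rfl]
  push_cast
  ring

end Pool.Agent.BraidLen
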