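import Pool.Agent.BraidLen.Words

set_option autoImplicit false

/-!
# The inner products of the full twists
-/

namespace Pool.Agent.BraidLen

section

variable {X : Type*} [MetricSpace X] {G : Type*} [Group G] [MulAction G X]
variable (hG : ∀ g : G, Isometry (fun x : X => g • x))
variable {n : ℕ} {σ : ℕ → G}

theorem BR.conj_succ (hσ : BR n σ) {i : ℕ} (hi : i + 1 < n) :
    (σ i * σ (i + 1)) * σ i * (σ i * σ (i + 1))⁻¹ = σ (i + 1) := by
  rw [hσ.braid i hi]
  group

include hG

/-- length of a generator -/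
theorem ip_s (hσ : BR n σ) (x : X) {i : ℕ} (hi : i < n) :
    ip x (σ i) (σ i) = ip x (σ 0) (σ 0) := by
  induction i with
  | zero => rfl
  | succ i ih =>
    rw [← ih (by omega)]
    conv_lhs => rw [← hσ.conj_succ hi]
    exact ip_conj hG x _ _ _

omit hG in
theorem conj_self {w g : G} (h : Commute w g) : w * g * w⁻¹ = g := by
  rw [h.eq]
  group

/-- inner product of two distant generators -/
theorem ip_r_up (hσ : BR n σ) (x : X) {i j : ℕ} (hij : i + 2 ≤ j) (hj : j < n) :
    ip x (σ i) (σ j) = ip x (σ i) (σ (i + 2)) := by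
  induction j, hij using Nat.le_induction with
  | base => rfl
  | succ j hij ih =>
    rw [← ih (by omega)]
    have h1 : Commute (σ j * σ (j + 1)) (σ i) :=
      ((hσ.comm i j hij (by omega)).mul_right (hσ.comm i (j + 1) (by omega) (by omega))).symm
    conv_lhs => rw [← hσ.conj_succ hj, ← conj_self h1]
    exact ip_conj hG x _ _ _

theorem ip_r (hσ : BR n σ) (x : X) {i j : ℕ} (hij : i + 2 ≤ j) (hj : j < n) :
    ip x (σ i) (σ j) = ip x (σ 0) (σ 2) := by
  induction i generalizing j with
  | zero => exact ip_r_up hG hσ x hij hj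
  | succ i ih =>
    rw [← ih (j := j) (by omega) hj]
    have h1 : Commute (σ i * σ (i + 1)) (σ j) :=
      ((hσ.comm i j (by omega) hj).mul_left (hσ.comm (i + 1) j (by omega) hj))
    conv_lhs => rw [← hσ.conj_succ (i := i) (by omega), ← conj_self h1]
    exact ip_conj hG x _ _ _

theorem ip_far (hσ : BR n σ) (x : X) {i j : ℕ} (hij : i + 2 ≤ j ∨ j + 2 ≤ i) (hi : i < n)
    (hj : j < n) : ip x (σ i) (σ j) = ip x (σ 0) (σ 2) := by
  rcases hij with h | h
  · exact ip_r hG hσ x h hj
  · rw [ip_comm x (hσ.comm j i h hi).symm]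
    exact ip_r hG hσ x h hi

omit hG in
theorem D_two (σ : ℕ → G) (a : ℕ) : D σ a 2 = σ (a + 1) * (σ a * σ a) * σ (a + 1) := by
  show σ (a + 1) * (σ (a + 0) * 1 * σ (a + 0)) * σ (a + 1) = _
  rw [mul_one]
  rfl

theorem ip_t (hσ : BR n σ) (x : X) {i : ℕ} (hi : i + 1 < n) :
    ip x (σ i) (D σ i 2) = ip x (σ 0) (D σ 0 2) := by
  induction i with
  | zero => rfl
  | succ i ih =>
    rw [← ih (by omega)]
    have h1 := hσ.row_shift (a := i) (k := 3) (i := i) (by omega) le_rfl (by omega)
    have h2 := hσ.row_shift (a := i) (k := 3) (i := i + 1) (by omega) (by omega) (by omega)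
    set w := row σ i 3
    have e1 : w * σ i * w⁻¹ = σ (i + 1) := by rw [h1]; group
    have e2 : w * σ (i + 1) * w⁻¹ = σ (i + 1 + 1) := by rw [h2]; group
    have e3 : w * D σ i 2 * w⁻¹ = D σ (i + 1) 2 := by
      rw [D_two, D_two]
      calc w * (σ (i + 1) * (σ i * σ i) * σ (i + 1)) * w⁻¹ =
          (w * σ (i + 1) * w⁻¹) * ((w * σ i * w⁻¹) * (w * σ i * w⁻¹)) *
            (w * σ (i + 1) * w⁻¹) := by group
        _ = _ := by rw [e1, e2]
    rw [← e3]
    conv_lhs => rw [← e1]
    exact ip_conj hG x _ _ _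

/-- The inner product of `g` with `D` and `T`, when all generators have the same inner product. -/
theorem ip_D_const (hX : CN X) (x : X) {g : G} {a k : ℕ} {α : ℝ}
    (h : ∀ i, a ≤ i → i < a + k → Commute g (σ i))
    (hα : ∀ i, a ≤ i → i < a + k → ip x g (σ i) = α) :
    ip x g (D σ a k) = 2 * k * α := by
  induction k with
  | zero => simp [D, ip_one hG]
  | succ k ih =>
    have h1 := h (a + k) (by omega) (by omega)
    have h2 : Commute g (D σ a k) := commute_D fun i hi hk => h i hi (by omega)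
    show ip x g (σ (a + k) * D σ a k * σ (a + k)) = _
    rw [ip_mul hG hX x (h1.mul_right h2) h1, ip_mul hG hX x h1 h2,
      ih (fun i hi hk => h i hi (by omega)) (fun i hi hk => hα i hi (by omega)),
      hα (a + k) (by omega) (by omega)]
    push_cast
    ring

theorem ip_T_const (hX : CN X) (x : X) {g : G} {a k : ℕ} {α : ℝ}
    (h : ∀ i, a ≤ i → i < a + k → Commute g (σ i))
    (hα : ∀ i, a ≤ i → i < a + k → ip x g (σ i) = α) :
    ip x g (T σ a k) = k * (k + 1) * α := by
  induction k with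
  | zero => simp [T, ip_one hG]
  | succ k ih =>
    have h2 : Commute g (T σ a k) := commute_T fun i hi hk => h i hi (by omega)
    show ip x g (T σ a k * D σ a (k + 1)) = _
    rw [ip_mul hG hX x h2 (commute_D h),
      ih (fun i hi hk => h i hi (by omega)) (fun i hi hk => hα i hi (by omega)),
      ip_D_const hG hX x h hα]
    push_cast
    ring

theorem ip_D_first (hX : CN X) (hσ : BR n σ) (x : X) {a k : ℕ} (hk : a + (k + 2) ≤ n) :
    ip x (σ a) (D σ a (k + 2)) = ip x (σ 0) (D σ 0 2) + 2 * k * ip x (σ 0) (σ 2) := by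
  induction k with
  | zero =>
    simp only [Nat.cast_zero, mul_zero, zero_mul, add_zero]
    exact ip_t hG hσ x (by omega)
  | succ k ih =>
    have h1 : Commute (σ a) (σ (a + (k + 2))) := hσ.far (by omega) (by omega) (by omega)
    have h2 : Commute (σ a) (D σ a (k + 2)) := hσ.D_inner (by omega) le_rfl (by omega)
    show ip x (σ a) (σ (a + (k + 2)) * D σ a (k + 2) * σ (a + (k + 2))) = _
    rw [ip_mul hG hX x (h1.mul_right h2) h1, ip_mul hG hX x h1 h2, ih (by omega),
      ip_far hG hσ x (i := a) (j := a + (k + 2)) (by omega) (by omega) (by omega)]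
    push_cast
    ring

theorem ip_T_first (hX : CN X) (hσ : BR n σ) (x : X) {a k : ℕ} (hk : a + (k + 1) ≤ n) :
    ip x (σ a) (T σ a (k + 1)) = 2 * ip x (σ 0) (σ 0) + k * ip x (σ 0) (D σ 0 2) +
      k * (k - 1) * ip x (σ 0) (σ 2) := by
  induction k with
  | zero =>
    have e : T σ a (0 + 1) = σ a * σ a := by
      show (1 : G) * (σ (a + 0) * 1 * σ (a + 0)) = _
      rw [one_mul, mul_one]
      rfl
    rw [e, ip_mul hG hX x (Commute.refl _) (Commute.refl _), ip_s hG hσ x (by omega)]
    push_cast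
    ring
  | succ k ih =>
    have h2 : Commute (σ a) (T σ a (k + 1)) := hσ.T_inner (by omega) le_rfl (by omega)
    have h3 : Commute (σ a) (D σ a (k + 1 + 1)) := hσ.D_inner (by omega) le_rfl (by omega)
    have h4 : ip x (σ a) (D σ a (k + 1 + 1)) = _ :=
      ip_D_first hG hX hσ x (a := a) (k := k) (by omega)
    show ip x (σ a) (T σ a (k + 1) * D σ a (k + 1 + 1)) = _
    rw [ip_mul hG hX x h2 h3, ih (by omega), h4]
    push_cast
    ring

theorem ip_T_gen (hσ : BR n σ) (x : X) {a k i : ℕ} (hk : a + k ≤ n) (hi : a ≤ i)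
    (hik : i < a + k) : ip x (T σ a k) (σ i) = ip x (σ a) (T σ a k) := by
  induction i, hi using Nat.le_induction with
  | base => exact ip_comm x (hσ.T_inner hk le_rfl hik).symm
  | succ i hi ih =>
    rw [← ih (by omega)]
    have h1 : Commute (σ i * σ (i + 1)) (T σ a k) :=
      (hσ.T_inner hk hi (by omega)).mul_left (hσ.T_inner hk (by omega) hik)
    conv_lhs => rw [← hσ.conj_succ (i := i) (by omega), ← conj_self h1]
    exact ip_conj hG x _ _ _

/-- nested twists -/
theorem ip_T_nested (hX : CN X) (hσ : BR n σ) (x : X) {a k b m : ℕ} (hk : a + k ≤ n) (hab : a ≤ b)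
    (hm : b + m ≤ a + k) :
    ip x (T σ a k) (T σ b m) = m * (m + 1) * (2 * ip x (σ 0) (σ 0) +
      (k - 1) * ip x (σ 0) (D σ 0 2) + (k - 1) * (k - 2) * ip x (σ 0) (σ 2)) := by
  rcases m with _ | m
  · simp [T, ip_one hG]
  · obtain ⟨l, rfl⟩ : ∃ l, k = l + 1 := ⟨k - 1, by omega⟩
    rw [ip_T_const hG hX x (α := ip x (σ a) (T σ a (l + 1)))
      (fun i hi hm' => (hσ.T_inner hk (by omega) (by omega)).symm)
      (fun i hi hm' => ip_T_gen hG hσ x hk (by omega) (by omega)),
      ip_T_first hG hX hσ x hk]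
    push_cast
    ring

omit hG in
theorem commute_T_nested (hσ : BR n σ) {a k b m : ℕ} (hk : a + k ≤ n) (hab : a ≤ b)
    (hm : b + m ≤ a + k) : Commute (T σ a k) (T σ b m) :=
  commute_T fun _ _ _ => (hσ.T_inner hk (by omega) (by omega)).symm

omit hG in
theorem commute_T_disj (hσ : BR n σ) {a k b m : ℕ} (hk : a + k < b) (hm : b + m ≤ n) :
    Commute (T σ a k) (T σ b m) :=
  commute_T fun _ _ _ => Commute.symm
    (commute_T fun _ _ _ => hσ.far (by omega) (by omega) (by omega))

/-- disjoint twists -/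
theorem ip_T_disj (hX : CN X) (hσ : BR n σ) (x : X) {a k b m : ℕ} (hk : a + k < b)
    (hm : b + m ≤ n) :
    ip x (T σ a k) (T σ b m) = k * (k + 1) * (m * (m + 1)) * ip x (σ 0) (σ 2) := by
  rw [ip_T_const hG hX x (α := k * (k + 1) * ip x (σ 0) (σ 2))]
  · ring
  · intro i hi him
    exact Commute.symm (commute_T fun j hj hjk => hσ.far (by omega) (by omega) (by omega))
  · intro i hi him
    have hc : Commute (σ i) (T σ a k) :=
      commute_T fun j hj hjk => hσ.far (by omega) (by omega) (by omega)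
    rw [ip_comm x hc.symm]
    exact ip_T_const hG hX x
      (fun j hj hjk => hσ.far (by omega) (by omega) (by omega))
      (fun j hj hjk => ip_far hG hσ x (by omega) (by omega) (by omega))

end

end Pool.Agent.BraidLen
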