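import Pool.Agent.BraidLen.Euclid

set_option autoImplicit false

/-!
# The action of the braid group on the Euclidean space
-/

namespace Pool.Agent.BraidLen

open Finset Filter Topology

/-- indicator of the pair `{k, l}` -/
noncomputable def ep (n : ℕ) (k l : Fin (n + 1)) : Fn n := fun p q =>
  if (p = k ∧ q = l) ∨ (p = l ∧ q = k) then 1 else 0

theorem ep_comm {n : ℕ} (k l : Fin (n + 1)) : ep n k l = ep n l k := by
  funext p q
  unfold ep
  congr 1
  exact propext or_comm

theorem pf_ep {n : ℕ} (π : Equiv.Perm (Fin (n + 1))) (k l : Fin (n + 1)) :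
    pf π (ep n k l) = ep n (π k) (π l) := by
  funext p q
  unfold pf ep
  simp only [Equiv.symm_apply_eq]

/-- the image of the generator -/
noncomputable def gi (n : ℕ) (x y z : ℝ) (i : Fin n) : EV n ≃ᵢ EV n :=
  iso (Equiv.swap i.castSucc i.succ) ((1 / 2 : ℝ) • mv x y z (ep n i.castSucc i.succ))

theorem swap_braid {α : Type*} [DecidableEq α] {a b c : α} (hab : a ≠ b) (hac : a ≠ c)
    (hbc : b ≠ c) : Equiv.swap a b * Equiv.swap b c * Equiv.swap a b =
      Equiv.swap b c * Equiv.swap a b * Equiv.swap b c := by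
  have h1 : Equiv.swap a b * Equiv.swap b c * Equiv.swap a b = Equiv.swap a c := by
    have := Equiv.swap_apply_apply (Equiv.swap a b) b c
    rw [Equiv.swap_apply_right, Equiv.swap_apply_of_ne_of_ne hac.symm hbc.symm,
      Equiv.swap_inv] at this
    exact this.symm
  have h2 : Equiv.swap b c * Equiv.swap a b * Equiv.swap b c = Equiv.swap a c := by
    have := Equiv.swap_apply_apply (Equiv.swap b c) a b
    rw [Equiv.swap_apply_left, Equiv.swap_apply_of_ne_of_ne hab hac, Equiv.swap_inv] at this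
    exact this.symm
  rw [h1, h2]

theorem gi_braid {n : ℕ} (x y z : ℝ) {i j : Fin n} (h : i.val + 1 = j.val) :
    gi n x y z i * gi n x y z j * gi n x y z i = gi n x y z j * gi n x y z i * gi n x y z j := by
  obtain ⟨a, ha⟩ : ∃ a, a = i.castSucc := ⟨_, rfl⟩
  obtain ⟨b, hb⟩ : ∃ b, b = i.succ := ⟨_, rfl⟩
  obtain ⟨c, hc⟩ : ∃ c, c = j.succ := ⟨_, rfl⟩
  have hb' : j.castSucc = b := by
    rw [hb]
    exact Fin.ext (by simp; omega)
  have hab : a ≠ b := by
    rw [ha, hb]
    exact fun h0 => by simpa using congrArg Fin.val h0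
  have hbc : b ≠ c := by
    rw [← hb', hc]
    exact fun h0 => by simpa using congrArg Fin.val h0
  have hac : a ≠ c := by
    rw [ha, hc]
    intro h0
    have := congrArg Fin.val h0
    simp at this
    omega
  unfold gi
  rw [hb', ← ha, ← hb, ← hc]
  rw [iso_mul, iso_mul, iso_mul, iso_mul, swap_braid hab hac hbc]
  congr 1
  rw [perm_mul, perm_mul]
  simp only [map_smul, perm_mv, pf_ep, Equiv.swap_apply_right, Equiv.swap_apply_left,
    Equiv.swap_apply_of_ne_of_ne hac.symm hbc.symm, Equiv.swap_apply_of_ne_of_ne hab hac]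
  abel

theorem gi_comm {n : ℕ} (x y z : ℝ) {i j : Fin n} (h : i.val + 2 ≤ j.val) :
    gi n x y z i * gi n x y z j = gi n x y z j * gi n x y z i := by
  have h1 : i.castSucc ≠ j.castSucc := fun h0 => by
    have := congrArg Fin.val h0
    simp at this
    omega
  have h2 : i.castSucc ≠ j.succ := fun h0 => by
    have := congrArg Fin.val h0
    simp at this
    omega
  have h3 : i.succ ≠ j.castSucc := fun h0 => by
    have := congrArg Fin.val h0
    simp at this
    omega
  have h4 : i.succ ≠ j.succ := fun h0 => by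
    have := congrArg Fin.val h0
    simp at this
    omega
  unfold gi
  rw [iso_mul, iso_mul]
  have hsw : Equiv.swap i.castSucc i.succ * Equiv.swap j.castSucc j.succ =
      Equiv.swap j.castSucc j.succ * Equiv.swap i.castSucc i.succ := by
    have := Equiv.swap_apply_apply (Equiv.swap i.castSucc i.succ) j.castSucc j.succ
    rw [Equiv.swap_apply_of_ne_of_ne h1.symm h3.symm, Equiv.swap_apply_of_ne_of_ne h2.symm h4.symm,
      Equiv.swap_inv] at this
    conv_rhs => rw [this]
    rw [mul_assoc, Equiv.swap_mul_self, mul_one]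
  rw [hsw]
  congr 1
  simp only [map_smul, perm_mv, pf_ep, Equiv.swap_apply_of_ne_of_ne h1.symm h3.symm,
    Equiv.swap_apply_of_ne_of_ne h2.symm h4.symm, Equiv.swap_apply_of_ne_of_ne h1 h2,
    Equiv.swap_apply_of_ne_of_ne h3 h4]
  abel

/-- the homomorphism to the isometries of the Euclidean space -/
noncomputable def hm (n : ℕ) (x y z : ℝ) : Braid n →* (EV n ≃ᵢ EV n) :=
  PresentedGroup.toGroup (rels := rels n) (f := gi n x y z) (by
    rintro r ⟨i, j, ⟨h, rfl⟩ | ⟨h, rfl⟩⟩
    · rw [map_mul, map_inv, mul_inv_eq_one]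
      simp only [map_mul, FreeGroup.lift_apply_of]
      exact gi_braid x y z h
    · rw [map_mul, map_inv, mul_inv_eq_one]
      simp only [map_mul, FreeGroup.lift_apply_of]
      exact gi_comm x y z h)

theorem hm_gen {n : ℕ} (x y z : ℝ) {i : ℕ} (h : i < n) :
    hm n x y z (gen n i) = gi n x y z ⟨i, h⟩ := by
  unfold gen hm
  rw [dif_pos h, PresentedGroup.toGroup.of]

/-- indicator of the pairs `{l, a + k}`, `a ≤ l < a + k` -/
noncomputable def dp (n a k : ℕ) : Fn n := fun p q =>
  if (q.val = a + k ∧ a ≤ p.val ∧ p.val < a + k) ∨ (p.val = a + k ∧ a ≤ q.val ∧ q.val < a + k)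
    then 1 else 0

theorem dp_zero (n a : ℕ) : dp n a 0 = 0 := by
  funext p q
  unfold dp
  rw [if_neg (by omega)]
  rfl

theorem dp_succ {n a k : ℕ} (h : a + k < n) :
    pf (Equiv.swap (Fin.castSucc ⟨a + k, h⟩) (Fin.succ ⟨a + k, h⟩)) (dp n a k) +
      ep n (Fin.castSucc ⟨a + k, h⟩) (Fin.succ ⟨a + k, h⟩) = dp n a (k + 1) := by
  funext p q
  have hs : ∀ r : Fin (n + 1),
      (r.val = a + k ∧ ((Equiv.swap (Fin.castSucc ⟨a + k, h⟩)
        (Fin.succ ⟨a + k, h⟩)).symm r).val = a + k + 1) ∨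
      (r.val = a + k + 1 ∧ ((Equiv.swap (Fin.castSucc ⟨a + k, h⟩)
        (Fin.succ ⟨a + k, h⟩)).symm r).val = a + k) ∨
      (r.val ≠ a + k ∧ r.val ≠ a + k + 1 ∧ ((Equiv.swap (Fin.castSucc ⟨a + k, h⟩)
        (Fin.succ ⟨a + k, h⟩)).symm r).val = r.val) := by
    intro r
    rw [Equiv.symm_swap, Equiv.swap_apply_def]
    by_cases h1 : r.val = a + k
    · rw [if_pos (Fin.ext (by simpa using h1))]
      exact Or.inl ⟨h1, by simp⟩
    · rw [if_neg (fun h0 => h1 (by simpa using congrArg Fin.val h0))]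
      by_cases h2 : r.val = a + k + 1
      · rw [if_pos (Fin.ext (by simpa using h2))]
        exact Or.inr (Or.inl ⟨h2, by simp⟩)
      · rw [if_neg (fun h0 => h2 (by simpa using congrArg Fin.val h0))]
        exact Or.inr (Or.inr ⟨h1, h2, rfl⟩)
  have hp := hs p
  have hq := hs q
  simp only [Pi.add_apply, pf, dp, ep, Fin.ext_iff, Fin.val_castSucc, Fin.val_succ]
  generalize ((Equiv.swap (Fin.castSucc ⟨a + k, h⟩) (Fin.succ ⟨a + k, h⟩)).symm p).val = P at *
  generalize ((Equiv.swap (Fin.castSucc ⟨a + k, h⟩) (Fin.succ ⟨a + k, h⟩)).symm q).val = Q at *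
  clear hs
  split_ifs <;> first | omega | norm_num

theorem ch_zero (n a : ℕ) : ch n a 0 = 0 := by
  funext p q
  unfold ch
  rw [if_neg]
  · rfl
  · rintro ⟨h1, h2, h3⟩
    exact h1 (Fin.ext (by omega))

theorem ch_succ (n a k : ℕ) : ch n a k + dp n a (k + 1) = ch n a (k + 1) := by
  funext p q
  simp only [Pi.add_apply, ch, dp, ne_eq, Fin.ext_iff]
  split_ifs <;> first | omega | norm_num

theorem hm_D {n : ℕ} (x y z : ℝ) {a k : ℕ} (h : a + k ≤ n) :
    hm n x y z (D (gen n) a k) = iso 1 (mv x y z (dp n a k)) := by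
  induction k with
  | zero =>
    show hm n x y z 1 = _
    rw [map_one, dp_zero, mv_zero, iso_one]
  | succ k ih =>
    have hk : a + k < n := by omega
    show hm n x y z (gen n (a + k) * D (gen n) a k * gen n (a + k)) = _
    rw [map_mul, map_mul, ih (by omega), hm_gen x y z hk]
    unfold gi
    rw [iso_mul, iso_mul, mul_one, Equiv.swap_mul_self]
    congr 1
    rw [map_smul, perm_mv, perm_mv, pf_ep, Equiv.swap_apply_left, Equiv.swap_apply_right,
      ep_comm (Fin.succ ⟨a + k, hk⟩), ← dp_succ hk, mv_add]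
    module

theorem hm_T {n : ℕ} (x y z : ℝ) {a k : ℕ} (h : a + k ≤ n) :
    hm n x y z (T (gen n) a k) = iso 1 (mv x y z (ch n a k)) := by
  induction k with
  | zero =>
    show hm n x y z 1 = _
    rw [map_one, ch_zero, mv_zero, iso_one]
  | succ k ih =>
    show hm n x y z (T (gen n) a k * D (gen n) a (k + 1)) = _
    rw [map_mul, ih (by omega), hm_D x y z h, iso_mul, perm_one, mul_one, ← ch_succ, mv_add]
    congr 1
    abel

theorem iso_pow {n : ℕ} (c : EV n) (k : ℕ) : (iso 1 c : EV n ≃ᵢ EV n) ^ k = iso 1 ((k : ℝ) • c) := by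
  induction k with
  | zero => rw [pow_zero, Nat.cast_zero, zero_smul, iso_one]
  | succ k ih =>
    rw [pow_succ, ih, iso_mul, perm_one, mul_one]
    congr 1
    push_cast
    module

theorem iso_zpow {n : ℕ} (c : EV n) (k : ℤ) : (iso 1 c : EV n ≃ᵢ EV n) ^ k = iso 1 ((k : ℝ) • c) := by
  obtain ⟨m, rfl | rfl⟩ := k.eq_nat_or_neg
  · rw [zpow_natCast, iso_pow]
    push_cast
    rfl
  · rw [zpow_neg, zpow_natCast, iso_pow, inv_eq_iff_mul_eq_one, iso_mul, perm_one, mul_one,
      ← iso_one]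
    congr 1
    push_cast
    module

theorem hm_multi {n : ℕ} (x y z : ℝ) {m : ℕ} (a k : Fin m → ℕ) (e : Fin m → ℤ)
    (h : ∀ j, a j + k j ≤ n) :
    hm n x y z (multi n a k e) = iso 1 (mv x y z (fun p q => (link n a k e p q : ℝ))) := by
  have h1 : (fun p q => (link n a k e p q : ℝ)) = ∑ j, (e j : ℝ) • ch n (a j) (k j) := by
    funext p q
    rw [link_cast]
    simp only [Finset.sum_apply, Pi.smul_apply, smul_eq_mul]
  rw [h1]
  clear h1
  unfold multi
  induction m with
  | zero => simp [mv_zero, iso_one]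
  | succ m ih =>
    rw [List.ofFn_succ, List.prod_cons, map_mul, map_zpow, twist_eq (h 0), hm_T x y z (h 0),
      iso_zpow, ih (fun j => a j.succ) (fun j => k j.succ) (fun j => e j.succ)
        (fun j => h j.succ), iso_mul, perm_one, mul_one, Fin.sum_univ_succ, mv_add, mv_smul]
    congr 1
    abel

theorem link_self (n : ℕ) {m : ℕ} (a k : Fin m → ℕ) (e : Fin m → ℤ) (p : Fin (n + 1)) :
    link n a k e p p = 0 := by
  unfold link
  refine Finset.sum_eq_zero (fun j _ => ?_)
  rw [if_neg (fun h => h.1 rfl)]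

theorem link_symm (n : ℕ) {m : ℕ} (a k : Fin m → ℕ) (e : Fin m → ℤ) (p q : Fin (n + 1)) :
    link n a k e p q = link n a k e q p := by
  unfold link
  refine Finset.sum_congr rfl (fun j _ => ?_)
  congr 1
  refine propext ⟨fun h => ⟨h.1.symm, h.2.2, h.2.1⟩, fun h => ⟨h.1.symm, h.2.2, h.2.1⟩⟩

/-- the action -/
@[instance_reducible] noncomputable def act (n : ℕ) (x y z : ℝ) : MulAction (Braid n) (EV n) where
  smul g v := hm n x y z g v
  one_smul v := by
    show hm n x y z 1 v = v
    rw [map_one]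
    rfl
  mul_smul g h v := by
    show hm n x y z (g * h) v = hm n x y z g (hm n x y z h v)
    rw [map_mul]
    rfl

theorem lenForm_act (n : ℕ) (x y z : ℝ) :
    @LenForm n (EV n) _ (act n x y z) (2 * x * z + 2 * y ^ 2 + 4 * n * y * z + n * (n + 1) * z ^ 2)
      (4 * x * y + 2 * (n - 1) * y ^ 2) (x ^ 2) := by
  let _ := act n x y z
  have hG : ∀ g : Braid n, Isometry (fun v : EV n => g • v) := fun g => (hm n x y z g).isometry
  intro m a k e hL w v
  have h1 := (tendsto_ell hG v (w * multi n a k e * w⁻¹)).pow 2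
  rw [ell_conj hG] at h1
  set c : EV n := mv x y z (fun p q => (link n a k e p q : ℝ)) with hc
  have hg : ∀ N : ℕ, (multi n a k e) ^ N • v = v + (N : ℝ) • c := by
    intro N
    show hm n x y z ((multi n a k e) ^ N) v = _
    rw [map_pow, hm_multi x y z a k e hL.1, iso_pow, iso_apply, perm_one]
  have h2 : ell v (multi n a k e) = ‖c‖ := by
    refine ell_eq hG v _ ?_
    refine tendsto_const_nhds.congr' ?_
    filter_upwards [eventually_gt_atTop 0] with N hN
    have hN' : (0 : ℝ) < N := by exact_mod_cast hN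
    rw [hg N, dist_eq_norm, show v - (v + (N : ℝ) • c) = -((N : ℝ) • c) by abel, norm_neg,
      norm_smul, Real.norm_of_nonneg hN'.le]
    field_simp
  have h3 : ‖c‖ ^ 2 = Q n (2 * x * z + 2 * y ^ 2 + 4 * n * y * z + n * (n + 1) * z ^ 2)
      (4 * x * y + 2 * (n - 1) * y ^ 2) (x ^ 2) (link n a k e) := by
    rw [hc, norm_mv]
    · rfl
    · intro p
      simp only [link_self, Int.cast_zero]
    · intro p q
      simp only [link_symm n a k e p q]
  rw [h2, h3] at h1
  exact h1

theorem exists_param {n : ℕ} (hn : 3 ≤ n) {A B C : ℝ} (h : Cone n A B C) : ∃ x y z : ℝ,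
    C = x ^ 2 ∧ B = 4 * x * y + 2 * (n - 1) * y ^ 2 ∧
    A = 2 * x * z + 2 * y ^ 2 + 4 * n * y * z + n * (n + 1) * z ^ 2 := by
  obtain ⟨h1, h2, h3⟩ := h
  have hn' : (3 : ℝ) ≤ n := by exact_mod_cast hn
  set x : ℝ := Real.sqrt C with hx
  have hx2 : x ^ 2 = C := Real.sq_sqrt h1
  obtain ⟨y, hy⟩ := exists_quadratic_eq_zero (a := 2 * ((n : ℝ) - 1)) (b := 4 * x) (c := -B)
    (by linarith) ⟨Real.sqrt (8 * ((n - 1) * B + 2 * C)), by
      rw [Real.mul_self_sqrt (by linarith), discrim]
      rw [show (4 * x) ^ 2 = 16 * x ^ 2 by ring, hx2]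
      ring⟩
  have hy' : B = 4 * x * y + 2 * (n - 1) * y ^ 2 := by linarith
  obtain ⟨z, hz⟩ := exists_quadratic_eq_zero (a := (n : ℝ) * (n + 1)) (b := 2 * x + 4 * n * y)
    (c := 2 * y ^ 2 - A) (by positivity) ⟨Real.sqrt (4 * (n * (n + 1) * A + n * B + C)), by
      rw [Real.mul_self_sqrt (by linarith), discrim, hy', ← hx2]
      ring⟩
  exact ⟨x, y, z, hx2.symm, hy', by linarith⟩

/-- realisation of all forms of the cone -/
theorem realisation {n : ℕ} (hn : 3 ≤ n) {A B C : ℝ} (h : Cone n A B C) :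
    ∃ _ : MulAction (Braid n) (EV n),
      (∀ g : Braid n, Isometry (fun x : EV n => g • x)) ∧ LenForm n (EV n) A B C := by
  obtain ⟨x, y, z, rfl, rfl, rfl⟩ := exists_param hn h
  exact ⟨act n x y z, fun g => (hm n x y z g).isometry, lenForm_act n x y z⟩

end Pool.Agent.BraidLen
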