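import Pool.Agent.BraidLen.Form
import Pool.Agent.BraidLen.Count

set_option autoImplicit false

/-!
# Rigidity of the translation lengths of multitwists
-/

namespace Pool.Agent.BraidLen

open Filter Topology

/-- the generators satisfy the braid relations -/
theorem br_gen (n : ℕ) : BR n (gen n) := by
  have key : ∀ r ∈ rels n, (PresentedGroup.mk (rels n)) r = 1 := fun r hr =>
    PresentedGroup.one_of_mem hr
  constructor
  · intro i hi
    have h1 : i < n := by omega
    have h := key _ ⟨⟨i, h1⟩, ⟨i + 1, hi⟩, Or.inl ⟨rfl, rfl⟩⟩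
    rw [map_mul, map_inv, mul_inv_eq_one] at h
    simp only [map_mul] at h
    unfold gen
    rw [dif_pos h1, dif_pos hi]
    exact h
  · intro i j hij hj
    have h1 : i < n := by omega
    have h := key _ ⟨⟨i, h1⟩, ⟨j, hj⟩, Or.inr ⟨hij, rfl⟩⟩
    rw [map_mul, map_inv, mul_inv_eq_one] at h
    simp only [map_mul] at h
    unfold gen
    rw [dif_pos h1, dif_pos hj]
    exact h

theorem row_eq {G : Type*} [Group G] (σ : ℕ → G) (a k : ℕ) :
    ((List.range k).map fun j => σ (a + j)).prod = row σ a k := by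
  induction k with
  | zero => rfl
  | succ k ih =>
    rw [List.range_succ, List.map_append, List.prod_append, ih]
    simp [row]

theorem twist_eq {n a k : ℕ} (h : a + k ≤ n) : twist n a k = T (gen n) a k := by
  rw [(br_gen n).T_eq h, twist, row_eq]

section

variable {n : ℕ} {X : Type*} [MetricSpace X] [MulAction (Braid n) X]
variable (hG : ∀ g : Braid n, Isometry (fun x : X => g • x))

include hG

theorem ip_base (x y : X) (g h : Braid n) : ip x g h = ip y g h := by
  unfold ip
  rw [ell_base hG x y, ell_base hG x y g, ell_base hG x y h]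

/-- the inner products of two twists of a laminar family -/
theorem ip_twist (hX : CN X) (x : X) {a k b m : ℕ} (h1 : a + k ≤ n) (h2 : b + m ≤ n)
    (h : (a ≤ b ∧ b + m ≤ a + k) ∨ (b ≤ a ∧ a + k ≤ b + m) ∨ a + k < b ∨ b + m < a) :
    Commute (twist n a k) (twist n b m) ∧ ip x (twist n a k) (twist n b m) =
      bil n (ip x (gen n 0) (gen n 2))
        (ip x (gen n 0) (D (gen n) 0 2) - 4 * ip x (gen n 0) (gen n 2))
        (2 * ip x (gen n 0) (gen n 0) - ip x (gen n 0) (D (gen n) 0 2) +
          2 * ip x (gen n 0) (gen n 2)) (ch n a k) (ch n b m) := by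
  have hσ := br_gen n
  rw [twist_eq h1, twist_eq h2]
  rcases h with h | h | h | h
  · refine ⟨commute_T_nested hσ h1 h.1 h.2, ?_⟩
    rw [ip_T_nested hG hX hσ x h1 h.1 h.2, bil_nested _ _ _ h1 h.1 h.2]
    ring
  · have hc := commute_T_nested hσ h2 h.1 h.2
    refine ⟨hc.symm, ?_⟩
    rw [ip_comm x hc.symm, bil_comm, ip_T_nested hG hX hσ x h2 h.1 h.2,
      bil_nested _ _ _ h2 h.1 h.2]
    ring
  · refine ⟨commute_T_disj hσ h h2, ?_⟩
    rw [ip_T_disj hG hX hσ x h h2, bil_disj _ _ _ h h2]
  · have hc := commute_T_disj hσ h h1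
    refine ⟨hc.symm, ?_⟩
    rw [ip_comm x hc.symm, bil_comm, ip_T_disj hG hX hσ x h h1, bil_disj _ _ _ h h1]

/-- the length of a multitwist -/
theorem ell_multi (hX : CN X) (x : X) {m : ℕ} (a k : Fin m → ℕ) (e : Fin m → ℤ)
    (hL : Lam n a k) :
    ell x (multi n a k e) ^ 2 = Q n (ip x (gen n 0) (gen n 2))
        (ip x (gen n 0) (D (gen n) 0 2) - 4 * ip x (gen n 0) (gen n 2))
        (2 * ip x (gen n 0) (gen n 0) - ip x (gen n 0) (D (gen n) 0 2) +
          2 * ip x (gen n 0) (gen n 2)) (link n a k e) := by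
  rw [Q_link, multi, ell_prod hG hX x _ e
    (fun i j => (ip_twist hG hX x (hL.1 i) (hL.1 j) (hL.2 i j)).1)]
  refine Finset.sum_congr rfl (fun i _ => Finset.sum_congr rfl (fun j _ => ?_))
  rw [(ip_twist hG hX x (hL.1 i) (hL.1 j) (hL.2 i j)).2]

theorem lenForm (hX : CN X) (x₀ : X) : LenForm n X (ip x₀ (gen n 0) (gen n 2))
        (ip x₀ (gen n 0) (D (gen n) 0 2) - 4 * ip x₀ (gen n 0) (gen n 2))
        (2 * ip x₀ (gen n 0) (gen n 0) - ip x₀ (gen n 0) (D (gen n) 0 2) +
          2 * ip x₀ (gen n 0) (gen n 2)) := by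
  intro m a k e hL w x
  have h1 := (tendsto_ell hG x (w * multi n a k e * w⁻¹)).pow 2
  rw [ell_conj hG, ell_base hG x x₀, ell_multi hG hX x₀ a k e hL] at h1
  exact h1

end

/-- the necessary inequalities -/
theorem cone_of_lenForm {n : ℕ} (hn : 3 ≤ n) {X : Type*} [MetricSpace X] [MulAction (Braid n) X]
    (x : X) {A B C : ℝ} (h : LenForm n X A B C) : Cone n A B C := by
  have hn' : (3 : ℝ) ≤ n := by exact_mod_cast hn
  have nn : ∀ (m : ℕ) (a k : Fin m → ℕ) (e : Fin m → ℤ), Lam n a k →
      0 ≤ Q n A B C (link n a k e) := by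
    intro m a k e hL
    exact ge_of_tendsto' (h m a k e hL 1 x) (fun N => by positivity)
  refine ⟨?_, ?_, ?_⟩
  · have h1 := nn 3 ![0, 2, 0] ![1, 1, 3] ![3, 3, -1] ⟨by
      intro j
      fin_cases j <;> simp <;> omega, by
      intro i j
      fin_cases i <;> fin_cases j <;> simp⟩
    rw [Q_link] at h1
    have b00 := bil_nested (n := n) A B C (a := 0) (k := 1) (b := 0) (m := 1) (by omega)
      (by omega) (by omega)
    have b11 := bil_nested (n := n) A B C (a := 2) (k := 1) (b := 2) (m := 1) (by omega)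
      (by omega) (by omega)
    have b22 := bil_nested (n := n) A B C (a := 0) (k := 3) (b := 0) (m := 3) (by omega)
      (by omega) (by omega)
    have b20 := bil_nested (n := n) A B C (a := 0) (k := 3) (b := 0) (m := 1) (by omega)
      (by omega) (by omega)
    have b21 := bil_nested (n := n) A B C (a := 0) (k := 3) (b := 2) (m := 1) (by omega)
      (by omega) (by omega)
    have b01 := bil_disj (n := n) A B C (a := 0) (k := 1) (b := 2) (m := 1) (by omega)
      (by omega)
    have b02 := bil_comm n A B C (ch n 0 3) (ch n 0 1)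
    have b12 := bil_comm n A B C (ch n 0 3) (ch n 2 1)
    have b10 := bil_comm n A B C (ch n 0 1) (ch n 2 1)
    rw [b20] at b02
    rw [b21] at b12
    rw [b01] at b10
    simp only [Fin.sum_univ_three, Matrix.cons_val_zero, Matrix.cons_val_one,
      Matrix.cons_val] at h1
    rw [b00, b11, b22, b20, b21, b01, ← b02, ← b12, ← b10] at h1
    push_cast at h1
    linarith
  · have h1 := nn 2 ![0, 0] ![n - 1, n] ![(n : ℤ) + 1, -((n : ℤ) - 1)] ⟨by
      intro j
      fin_cases j <;> simp, by
      intro i j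
      fin_cases i <;> fin_cases j <;> simp⟩
    rw [Q_link] at h1
    have b00 := bil_nested (n := n) A B C (a := 0) (k := n - 1) (b := 0) (m := n - 1) (by omega)
      (by omega) (by omega)
    have b11 := bil_nested (n := n) A B C (a := 0) (k := n) (b := 0) (m := n) (by omega)
      (by omega) (by omega)
    have b10 := bil_nested (n := n) A B C (a := 0) (k := n) (b := 0) (m := n - 1) (by omega)
      (by omega) (by omega)
    have b01 := bil_comm n A B C (ch n 0 n) (ch n 0 (n - 1))
    rw [b10] at b01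
    simp only [Fin.sum_univ_two, Matrix.cons_val_zero, Matrix.cons_val_one] at h1
    rw [b00, b11, b10, ← b01] at h1
    have e1 : ((n - 1 : ℕ) : ℝ) = n - 1 := by
      rw [Nat.cast_sub (by omega)]
      push_cast
      rfl
    rw [e1] at h1
    push_cast at h1
    have h2 : 0 ≤ (n : ℝ) * (n - 1) * (n + 1) * ((n - 1) * B + 2 * C) := by
      refine h1.trans (le_of_eq ?_)
      ring
    have h3 : 0 < (n : ℝ) * (n - 1) * (n + 1) := by
      have : (0 : ℝ) < n - 1 := by linarith
      positivity
    exact nonneg_of_mul_nonneg_right h2 h3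
  · have h1 := nn 1 ![0] ![n] ![1] ⟨by
      intro j
      fin_cases j
      simp, by
      intro i j
      fin_cases i
      fin_cases j
      simp⟩
    rw [Q_link] at h1
    have b00 := bil_nested (n := n) A B C (a := 0) (k := n) (b := 0) (m := n) (by omega)
      (by omega) (by omega)
    simp only [Fin.sum_univ_one, Matrix.cons_val_fin_one] at h1
    rw [b00] at h1
    push_cast at h1
    have h2 : 0 ≤ (n : ℝ) * (n + 1) * (n * (n + 1) * A + n * B + C) := by
      refine h1.trans (le_of_eq ?_)
      ring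
    exact nonneg_of_mul_nonneg_right h2 (by positivity)

/-- rigidity, with the inequalities -/
theorem rigidity {n : ℕ} (hn : 3 ≤ n) (X : Type*) [MetricSpace X] [MulAction (Braid n) X]
    (hG : ∀ g : Braid n, Isometry (fun x : X => g • x)) (hX : CN X) :
    ∃ A B C : ℝ, Cone n A B C ∧ LenForm n X A B C := by
  rcases isEmpty_or_nonempty X with hE | ⟨⟨x⟩⟩
  · refine ⟨0, 0, 0, ⟨by simp, by simp, by simp⟩, ?_⟩
    intro m a k e hL w x
    exact (hE.false x).elim
  · have h := lenForm hG hX x
    exact ⟨_, _, _, cone_of_lenForm hn x h, h⟩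

end Pool.Agent.BraidLen
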