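import Pool.Agent.BraidLen.Basic

set_option autoImplicit false

/-!
# Full twists in a group with braid generators

`σ 0, …, σ (n-1)` satisfy the braid relations.  `D σ a k` and `T σ a k` are the usual elements of the
braid group on the strands `a, …, a + k`.
-/

namespace Pool.Agent.BraidLen

/-- The elements `σ 0, …, σ (n-1)` satisfy the braid relations. -/
structure BR {G : Type*} [Group G] (n : ℕ) (σ : ℕ → G) : Prop where
  braid : ∀ i, i + 1 < n → σ i * σ (i + 1) * σ i = σ (i + 1) * σ i * σ (i + 1)
  comm : ∀ i j, i + 2 ≤ j → j < n → Commute (σ i) (σ j)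

section

variable {G : Type*} [Group G]

/-- `σ a ⋯ σ (a+k-1)`. -/
def row (σ : ℕ → G) (a : ℕ) : ℕ → G
  | 0 => 1
  | k + 1 => row σ a k * σ (a + k)

/-- `σ (a+k-1) ⋯ σ a`. -/
def down (σ : ℕ → G) (a : ℕ) : ℕ → G
  | 0 => 1
  | k + 1 => σ (a + k) * down σ a k

/-- `σ (a+k-1) ⋯ σ a σ a ⋯ σ (a+k-1)`. -/
def D (σ : ℕ → G) (a : ℕ) : ℕ → G
  | 0 => 1
  | k + 1 => σ (a + k) * D σ a k * σ (a + k)

/-- The full twist on the strands `a, …, a+k`. -/
def T (σ : ℕ → G) (a : ℕ) : ℕ → G
  | 0 => 1
  | k + 1 => T σ a k * D σ a (k + 1)

theorem D_eq (σ : ℕ → G) (a k : ℕ) : D σ a k = down σ a k * row σ a k := by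
  induction k with
  | zero => simp [D, down, row]
  | succ k ih => simp only [D, down, row, ih, mul_assoc]

variable {n : ℕ} {σ : ℕ → G}

theorem commute_D {g : G} {a k : ℕ} (h : ∀ i, a ≤ i → i < a + k → Commute g (σ i)) :
    Commute g (D σ a k) := by
  induction k with
  | zero => exact Commute.one_right g
  | succ k ih =>
    have h1 := h (a + k) (by omega) (by omega)
    exact (h1.mul_right (ih fun i hi hk => h i hi (by omega))).mul_right h1

theorem commute_T {g : G} {a k : ℕ} (h : ∀ i, a ≤ i → i < a + k → Commute g (σ i)) :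
    Commute g (T σ a k) := by
  induction k with
  | zero => exact Commute.one_right g
  | succ k ih =>
    exact (ih fun i hi hk => h i hi (by omega)).mul_right (commute_D h)

/-- distant generators commute -/
theorem BR.far (hσ : BR n σ) {i j : ℕ} (h : i + 2 ≤ j ∨ j + 2 ≤ i) (hi : i < n) (hj : j < n) :
    Commute (σ i) (σ j) := by
  rcases h with h | h
  · exact hσ.comm i j h hj
  · exact (hσ.comm j i h hi).symm

theorem BR.D_inner (hσ : BR n σ) {a k i : ℕ} (hk : a + k ≤ n) (hi : a ≤ i) (hik : i + 1 < a + k) :
    Commute (σ i) (D σ a k) := by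
  induction k with
  | zero => omega
  | succ k ih =>
    rcases Nat.lt_or_ge (i + 1) (a + k) with h | h
    · have h1 : Commute (σ i) (σ (a + k)) := hσ.far (by omega) (by omega) (by omega)
      exact (h1.mul_right (ih (by omega) h)).mul_right h1
    · have hk' : ∃ l, k = l + 1 := ⟨k - 1, by omega⟩
      obtain ⟨l, rfl⟩ := hk'
      have hil : i = a + l := by omega
      subst hil
      have hb := hσ.braid (a + l) (by omega)
      have hD : Commute (σ (a + l + 1)) (D σ a l) :=
        commute_D fun j hj hjl => hσ.far (by omega) (by omega) (by omega)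
      have e : a + (l + 1) = a + l + 1 := by omega
      show σ (a + l) * (σ (a + (l + 1)) * (σ (a + l) * D σ a l * σ (a + l)) * σ (a + (l + 1))) =
        σ (a + (l + 1)) * (σ (a + l) * D σ a l * σ (a + l)) * σ (a + (l + 1)) * σ (a + l)
      rw [e]
      generalize σ (a + l) = x at *
      generalize σ (a + l + 1) = y at *
      generalize D σ a l = d at *
      have hD' : y * d = d * y := hD.eq
      calc x * (y * (x * d * x) * y) = (x * y * x) * d * x * y := by group
        _ = (y * x * y) * d * x * y := by rw [hb]
        _ = y * x * (y * d) * x * y := by group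
        _ = y * x * (d * y) * x * y := by rw [hD']
        _ = y * x * d * (y * x * y) := by group
        _ = y * x * d * (x * y * x) := by rw [hb]
        _ = _ := by group

theorem BR.T_inner (hσ : BR n σ) {a k i : ℕ} (hk : a + k ≤ n) (hi : a ≤ i) (hik : i < a + k) :
    Commute (σ i) (T σ a k) := by
  induction k with
  | zero => omega
  | succ k ih =>
    rcases Nat.lt_or_ge i (a + k) with h | h
    · exact (ih (by omega) h).mul_right (hσ.D_inner hk hi (by omega))
    · have hik' : i = a + k := by omega
      subst hik'
      rcases k with _ | l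
      · show Commute (σ (a + 0)) (1 * (σ (a + 0) * 1 * σ (a + 0)))
        rw [one_mul, mul_one]
        exact (Commute.refl _).mul_right (Commute.refl _)
      · have h1 : Commute (σ (a + (l + 1))) (T σ a l) :=
          commute_T fun j hj hjl => hσ.far (by omega) (by omega) (by omega)
        have h2 : Commute (D σ a (l + 1 + 1)) (D σ a (l + 1)) :=
          commute_D fun j hj hjl => (hσ.D_inner hk hj (by omega)).symm
        have h3 : Commute (σ (a + (l + 1))) (D σ a (l + 1) * D σ a (l + 1 + 1)) := by
          show σ (a + (l + 1)) * (D σ a (l + 1) * D σ a (l + 1 + 1)) =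
            D σ a (l + 1) * D σ a (l + 1 + 1) * σ (a + (l + 1))
          rw [← h2.eq]
          conv_lhs => rw [h2.eq]
          have e : D σ a (l + 1 + 1) = σ (a + (l + 1)) * D σ a (l + 1) * σ (a + (l + 1)) := rfl
          rw [e]
          group
        have e2 : T σ a (l + 1 + 1) = T σ a l * (D σ a (l + 1) * D σ a (l + 1 + 1)) := by
          show T σ a l * D σ a (l + 1) * D σ a (l + 1 + 1) = _
          rw [mul_assoc]
        rw [e2]
        exact h1.mul_right h3

theorem BR.row_shift (hσ : BR n σ) {a k i : ℕ} (hk : a + k ≤ n) (hi : a ≤ i) (hik : i + 1 < a + k) :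
    row σ a k * σ i = σ (i + 1) * row σ a k := by
  induction k with
  | zero => omega
  | succ k ih =>
    rcases Nat.lt_or_ge (i + 1) (a + k) with h | h
    · have h1 : Commute (σ i) (σ (a + k)) := hσ.far (by omega) (by omega) (by omega)
      show row σ a k * σ (a + k) * σ i = σ (i + 1) * (row σ a k * σ (a + k))
      rw [mul_assoc, ← h1.eq, ← mul_assoc, ih (by omega) h, mul_assoc]
    · have hk' : ∃ l, k = l + 1 := ⟨k - 1, by omega⟩
      obtain ⟨l, rfl⟩ := hk'
      have hil : i = a + l := by omega
      subst hil
      have hb := hσ.braid (a + l) (by omega)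
      have hR : ∀ m, m ≤ l → Commute (σ (a + l + 1)) (row σ a m) := by
        intro m hm
        induction m with
        | zero => exact Commute.one_right _
        | succ m ihm =>
          exact (ihm (by omega)).mul_right (hσ.far (by omega) (by omega) (by omega))
      have e : a + (l + 1) = a + l + 1 := by omega
      show row σ a l * σ (a + l) * σ (a + (l + 1)) * σ (a + l) =
        σ (a + l + 1) * (row σ a l * σ (a + l) * σ (a + (l + 1)))
      rw [e]
      have h2 := (hR l le_rfl).eq
      generalize σ (a + l) = x at *
      generalize σ (a + l + 1) = y at *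
      generalize row σ a l = d at *
      calc d * x * y * x = d * (x * y * x) := by group
        _ = d * (y * x * y) := by rw [hb]
        _ = (d * y) * x * y := by group
        _ = (y * d) * x * y := by rw [h2]
        _ = _ := by group

theorem BR.row_down (hσ : BR n σ) {a k : ℕ} (hk : a + k ≤ n) (i : ℕ) (hi : a ≤ i) (j : ℕ)
    (hj : i + j < a + k) :
    down σ (i + 1) j * row σ a k = row σ a k * down σ i j := by
  induction j with
  | zero => simp [down]
  | succ j ih =>
    show σ (i + 1 + j) * down σ (i + 1) j * row σ a k = row σ a k * (σ (i + j) * down σ i j)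
    have h1 := hσ.row_shift (a := a) (k := k) (i := i + j) hk (by omega) (by omega)
    rw [mul_assoc, ih (by omega), ← mul_assoc, show i + 1 + j = i + j + 1 by omega, ← h1,
      mul_assoc]

theorem BR.row_pow (hσ : BR n σ) {a k : ℕ} (hk : a + k + 1 ≤ n) (j i : ℕ) (hij : i + j = k + 1) :
    row σ a (k + 1) ^ j = row σ a k ^ j * down σ (a + i) j := by
  induction j generalizing i with
  | zero => simp [down]
  | succ j ih =>
    have h1 := hσ.row_down (a := a) (k := k + 1) (by omega) (a + i) (by omega) j (by omega)
    rw [pow_succ, ih (i + 1) (by omega), mul_assoc, show a + (i + 1) = a + i + 1 by omega, h1,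
      pow_succ]
    show row σ a k ^ j * (row σ a k * σ (a + k) * down σ (a + i) j) =
      row σ a k ^ j * row σ a k * (σ (a + i + j) * down σ (a + i) j)
    rw [show a + i + j = a + k by omega]
    group

/-- The full twist is `(σ a ⋯ σ (a+k-1))^(k+1)`. -/
theorem BR.T_eq (hσ : BR n σ) {a k : ℕ} (hk : a + k ≤ n) : T σ a k = row σ a k ^ (k + 1) := by
  induction k with
  | zero => simp [T, row]
  | succ k ih =>
    show T σ a k * D σ a (k + 1) = _
    rw [pow_succ, hσ.row_pow (by omega) (k + 1) 0 (by omega), ih (by omega), D_eq, mul_assoc]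
    rfl

end

end Pool.Agent.BraidLen
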